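import Mathlib

/-! Sets of integer vectors with the exchange property are the integer points of the base
polytope of a submodular function. -/

namespace Pool.Agent.Lib.MP_8dad47_al

open Finset

variable {α : Type*} [DecidableEq α] [Fintype α]

/-- move one unit from coordinate `p` to coordinate `q` -/
def mv (u : α → ℤ) (p q : α) : α → ℤ := u + Pi.single q 1 - Pi.single p 1

omit [Fintype α] in
theorem mv_apply (u : α → ℤ) (p q j : α) :
    mv u p q j = u j + (if j = q then 1 else 0) - (if j = p then 1 else 0) := by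
  simp [mv, Pi.single_apply]

omit [Fintype α] in
theorem sum_mv (u : α → ℤ) (p q : α) (S : Finset α) :
    ∑ j ∈ S, mv u p q j =
      ∑ j ∈ S, u j + (if q ∈ S then 1 else 0) - (if p ∈ S then 1 else 0) := by
  simp only [mv_apply, Finset.sum_sub_distrib, Finset.sum_add_distrib, Finset.sum_ite_eq']

/-- the l1 distance -/
def dist1 (u v : α → ℤ) : ℤ := ∑ j, |u j - v j|

omit [DecidableEq α] in
theorem dist1_nonneg (u v : α → ℤ) : 0 ≤ dist1 u v :=
  Finset.sum_nonneg fun _ _ => abs_nonneg _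

theorem dist1_mv (u v : α → ℤ) (p q : α) (hpq : p ≠ q) :
    dist1 (mv u p q) v = dist1 u v + (if u q < v q then -1 else 1) +
      (if v p < u p then -1 else 1) := by
  have h : ∀ j, |mv u p q j - v j| = |u j - v j| +
      (if j = q then (if u q < v q then -1 else 1) else 0) +
      (if j = p then (if v p < u p then -1 else 1) else 0) := by
    intro j
    rw [mv_apply]
    by_cases h1 : j = q
    · subst h1
      have h2 : ¬ j = p := fun h => hpq h.symm
      simp only [if_true, h2, if_false]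
      rcases abs_cases (u j + 1 - 0 - v j) with h | h <;> rcases abs_cases (u j - v j) with h' | h' <;>
        split_ifs <;> omega
    · by_cases h2 : j = p
      · subst h2
        simp only [if_true, h1, if_false]
        rcases abs_cases (u j + 0 - 1 - v j) with h | h <;>
          rcases abs_cases (u j - v j) with h' | h' <;> split_ifs <;> omega
      · simp [h1, h2]
  simp only [dist1, h, Finset.sum_add_distrib, Finset.sum_ite_eq', Finset.mem_univ, if_true]

omit [DecidableEq α] [Fintype α] in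
theorem exists_min_of_nonneg (P : (α → ℤ) → Prop) (D : (α → ℤ) → ℤ) (hD : ∀ x, 0 ≤ D x)
    (hP : ∃ x, P x) : ∃ x, P x ∧ ∀ y, P y → D x ≤ D y := by
  obtain ⟨m, ⟨x, hx, rfl⟩, hm⟩ := Int.exists_least_of_bdd (P := fun m => ∃ x, P x ∧ D x = m)
    ⟨0, by rintro z ⟨x, -, rfl⟩; exact hD x⟩ (by obtain ⟨x, hx⟩ := hP; exact ⟨_, x, hx, rfl⟩)
  exact ⟨x, hx, fun y hy => hm _ ⟨y, hy, rfl⟩⟩

omit [DecidableEq α] [Fintype α] in
theorem exists_lt_of_sum_lt {u v : α → ℤ} {S : Finset α} (h : ∑ j ∈ S, u j < ∑ j ∈ S, v j) :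
    ∃ j ∈ S, u j < v j := by
  by_contra hc
  push Not at hc
  exact absurd (Finset.sum_le_sum hc) (not_le.mpr h)

section

variable {B : Set (α → ℤ)} {d : ℤ}

theorem nested_max (hdeg : ∀ b ∈ B, ∑ j, b j = d)
    (hex : ∀ u ∈ B, ∀ v ∈ B, ∀ p, v p < u p → ∃ q, u q < v q ∧ mv u p q ∈ B)
    {S T : Finset α} (hST : S ⊆ T) {b1 b2 : α → ℤ} (h1 : b1 ∈ B) (h2 : b2 ∈ B) :
    ∃ b ∈ B, ∑ j ∈ S, b1 j ≤ ∑ j ∈ S, b j ∧ ∑ j ∈ T, b2 j ≤ ∑ j ∈ T, b j := by
  obtain ⟨b, ⟨hb, hbS⟩, hmin⟩ := exists_min_of_nonneg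
    (fun b => b ∈ B ∧ ∑ j ∈ S, b1 j ≤ ∑ j ∈ S, b j) (fun b => dist1 b b2)
    (fun b => dist1_nonneg _ _) ⟨b1, h1, le_rfl⟩
  refine ⟨b, hb, hbS, ?_⟩
  by_contra hlt
  push Not at hlt
  have e1 := Finset.sum_add_sum_compl T b
  have e2 := Finset.sum_add_sum_compl T b2
  have e3 := hdeg b hb
  have e4 := hdeg b2 h2
  obtain ⟨p, hp, hp'⟩ := exists_lt_of_sum_lt (u := b2) (v := b) (S := Tᶜ) (by omega)
  obtain ⟨q, hq, hq'⟩ := hex b hb b2 h2 p hp'
  have hpS : p ∉ S := fun h => (Finset.mem_compl.mp hp) (hST h)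
  have hpq : p ≠ q := by rintro rfl; omega
  have h3 := hmin (mv b p q) ⟨hq', by
    rw [sum_mv, if_neg hpS]
    split_ifs <;> omega⟩
  simp only [dist1_mv _ _ _ _ hpq, if_pos hq, if_pos hp'] at h3
  omega

/-- The set of coordinates to which a unit can be moved from `p` has minimal weight at `b`. -/
theorem exch_min (hdeg : ∀ b ∈ B, ∑ j, b j = d)
    (hex : ∀ u ∈ B, ∀ v ∈ B, ∀ p, v p < u p → ∃ q, u q < v q ∧ mv u p q ∈ B)
    {b : α → ℤ} (hb : b ∈ B) (p : α) (E : Finset α) (hpE : p ∈ E)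
    (hE : ∀ q, q ≠ p → (q ∈ E ↔ mv b p q ∈ B)) :
    ∀ c ∈ B, ∑ j ∈ E, b j ≤ ∑ j ∈ E, c j := by
  by_contra hcon
  push Not at hcon
  obtain ⟨c0, ⟨hc0, hc0E⟩, hmin0⟩ := exists_min_of_nonneg
    (fun c => c ∈ B ∧ ∑ j ∈ E, c j < ∑ j ∈ E, b j) (fun c => dist1 c b)
    (fun b => dist1_nonneg _ _) hcon
  -- properties of every closest violator
  have prop : ∀ c ∈ B, ∑ j ∈ E, c j < ∑ j ∈ E, b j → dist1 c b ≤ dist1 c0 b →
      (∀ s, b s < c s → s ∉ E) ∧ ∑ j ∈ E, c j + 1 = ∑ j ∈ E, b j ∧ c p = b p := by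
    intro c hc hcE hd
    have hs : ∀ s, b s < c s → s ∉ E ∧ ∑ j ∈ E, c j + 1 = ∑ j ∈ E, b j := by
      intro s hs
      obtain ⟨r, hr, hr'⟩ := hex c hc b hb s hs
      have hsr : s ≠ r := by rintro rfl; omega
      have h3 : ¬ ∑ j ∈ E, mv c s r j < ∑ j ∈ E, b j := by
        intro h
        have h4 := hmin0 (mv c s r) ⟨hr', h⟩
        simp only [dist1_mv _ _ _ _ hsr, if_pos hr, if_pos hs] at h4
        omega
      rw [sum_mv] at h3
      constructor
      · intro hsE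
        rw [if_pos hsE] at h3
        split_ifs at h3 <;> omega
      · split_ifs at h3 <;> omega
    have e1 := Finset.sum_add_sum_compl E b
    have e2 := Finset.sum_add_sum_compl E c
    have e3 := hdeg b hb
    have e4 := hdeg c hc
    obtain ⟨s, -, hs'⟩ := exists_lt_of_sum_lt (u := b) (v := c) (S := Eᶜ) (by omega)
    refine ⟨fun s h => (hs s h).1, (hs s hs').2, ?_⟩
    rcases lt_trichotomy (c p) (b p) with h | h | h
    · obtain ⟨q, hq, hq'⟩ := hex b hb c hc p h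
      have hqp : q ≠ p := by rintro rfl; omega
      exact absurd ((hE q hqp).mpr hq') (hs q hq).1
    · exact h
    · exact absurd hpE (hs p h).1
  obtain ⟨a1, a2, a3⟩ := prop c0 hc0 hc0E le_rfl
  obtain ⟨r, hrE, hr⟩ := exists_lt_of_sum_lt hc0E
  have hrp : r ≠ p := by rintro rfl; omega
  have hc : mv b p r ∈ B := (hE r hrp).mp hrE
  obtain ⟨q, hq, hq'⟩ := hex c0 hc0 _ hc p (by
    rw [mv_apply, if_neg hrp.symm, if_pos rfl]; omega)
  have hqp : q ≠ p := by
    rintro rfl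
    rw [mv_apply, if_neg hrp.symm, if_pos rfl] at hq; omega
  have hq2 : c0 q < b q := by
    rw [mv_apply, if_neg hqp] at hq
    by_cases h : q = r
    · subst h; exact hr
    · rw [if_neg h] at hq; omega
  obtain ⟨-, -, b3⟩ := prop _ hq' (by
      rw [sum_mv, if_pos hpE]
      split_ifs <;> omega) (by
      rw [dist1_mv _ _ _ _ hqp.symm, if_pos hq2]
      split_ifs <;> omega)
  rw [mv_apply, if_neg hqp.symm, if_pos rfl] at b3
  omega

/-- A nonempty set of nonnegative integer vectors of constant sum with the exchange property is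
the set of integer points of the base polytope of a submodular function. -/
theorem exists_rank (hne : B.Nonempty) (hdeg : ∀ b ∈ B, ∑ j, b j = d)
    (hnn : ∀ b ∈ B, ∀ j, 0 ≤ b j)
    (hex : ∀ u ∈ B, ∀ v ∈ B, ∀ p, v p < u p → ∃ q, u q < v q ∧ mv u p q ∈ B) :
    ∃ ρ : Finset α → ℤ, (∀ X Y, ρ (X ∪ Y) + ρ (X ∩ Y) ≤ ρ X + ρ Y) ∧ ρ ∅ = 0 ∧
      ρ Finset.univ = d ∧ (∀ S, ρ S ≤ d) ∧
      ∀ x : α → ℤ, x ∈ B ↔ (∑ j, x j = d ∧ ∀ S, ∑ j ∈ S, x j ≤ ρ S) := by
  have hle : ∀ b ∈ B, ∀ S : Finset α, ∑ j ∈ S, b j ≤ d := by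
    intro b hb S
    rw [← hdeg b hb]
    exact Finset.sum_le_sum_of_subset_of_nonneg (Finset.subset_univ _) fun j _ _ => hnn b hb j
  have hmax : ∀ S : Finset α, ∃ m : ℤ, (∃ b ∈ B, ∑ j ∈ S, b j = m) ∧
      ∀ z, (∃ b ∈ B, ∑ j ∈ S, b j = z) → z ≤ m := fun S =>
    Int.exists_greatest_of_bdd (P := fun m => ∃ b ∈ B, ∑ j ∈ S, b j = m)
      ⟨d, by rintro z ⟨b, hb, rfl⟩; exact hle b hb S⟩
      (by obtain ⟨b, hb⟩ := hne; exact ⟨_, b, hb, rfl⟩)
  choose ρ hρ1 hρ2 using hmax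
  have hρ : ∀ b ∈ B, ∀ S, ∑ j ∈ S, b j ≤ ρ S := fun b hb S => hρ2 S _ ⟨b, hb, rfl⟩
  have hsub : ∀ X Y, ρ (X ∪ Y) + ρ (X ∩ Y) ≤ ρ X + ρ Y := by
    intro X Y
    obtain ⟨b1, h1, e1⟩ := hρ1 (X ∩ Y)
    obtain ⟨b2, h2, e2⟩ := hρ1 (X ∪ Y)
    obtain ⟨b, hb, f1, f2⟩ := nested_max hdeg hex (S := X ∩ Y) (T := X ∪ Y)
      (Finset.inter_subset_left.trans Finset.subset_union_left) h1 h2
    have := hρ b hb X
    have := hρ b hb Y
    have := Finset.sum_union_inter (s₁ := X) (s₂ := Y) (f := b)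
    omega
  have huniv : ρ Finset.univ = d := by
    obtain ⟨b, hb, e⟩ := hρ1 Finset.univ
    rw [← e, hdeg b hb]
  refine ⟨ρ, hsub, ?_, huniv, ?_, fun x => ⟨fun hx => ⟨hdeg x hx, hρ x hx⟩, ?_⟩⟩
  · obtain ⟨b, -, e⟩ := hρ1 ∅
    simpa using e.symm
  · intro S
    obtain ⟨b, hb, e⟩ := hρ1 S
    rw [← e]; exact hle b hb S
  rintro ⟨hx1, hx2⟩
  obtain ⟨b, hb, hmin⟩ := exists_min_of_nonneg (fun b => b ∈ B) (fun b => dist1 b x)
    (fun b => dist1_nonneg _ _) hne
  classical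
  -- for each `p` with `x p < b p` a tight set avoiding `p` and containing all `q` with `b q < x q`
  have hA : ∀ p, x p < b p → ∃ T : Finset α, p ∉ T ∧ (∀ q, b q < x q → q ∈ T) ∧
      ∑ j ∈ T, b j = ρ T := by
    intro p hp
    set E : Finset α := Finset.univ.filter fun q => q = p ∨ mv b p q ∈ B with hEdef
    have hpE : p ∈ E := by simp [hEdef]
    have hE : ∀ q, q ≠ p → (q ∈ E ↔ mv b p q ∈ B) := fun q hq => by simp [hEdef, hq]
    refine ⟨Eᶜ, by simpa using hpE, fun q hq => ?_, ?_⟩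
    · have hqp : q ≠ p := by rintro rfl; omega
      rw [Finset.mem_compl, hE q hqp]
      intro h
      have h3 := hmin _ h
      simp only [dist1_mv _ _ _ _ hqp.symm, if_pos hq, if_pos hp] at h3
      omega
    · obtain ⟨c, hc, e⟩ := hρ1 Eᶜ
      have h1 := exch_min hdeg hex hb p E hpE hE c hc
      have e1 := Finset.sum_add_sum_compl E b
      have e2 := Finset.sum_add_sum_compl E c
      have e3 := hdeg b hb
      have e4 := hdeg c hc
      have := hρ b hb Eᶜ
      omega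
  have hB : ∀ P : Finset α, (∀ p ∈ P, x p < b p) → ∃ T : Finset α, (∀ p ∈ P, p ∉ T) ∧
      (∀ q, b q < x q → q ∈ T) ∧ ∑ j ∈ T, b j = ρ T := by
    intro P
    induction P using Finset.induction_on with
    | empty => exact fun _ => ⟨Finset.univ, by simp, by simp, by rw [huniv, hdeg b hb]⟩
    | insert p P _ ih =>
      intro h
      obtain ⟨T1, a1, a2, a3⟩ := ih fun q hq => h q (Finset.mem_insert_of_mem hq)
      obtain ⟨T2, b1, b2, b3⟩ := hA p (h p (Finset.mem_insert_self _ _))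
      refine ⟨T1 ∩ T2, fun q hq hq' => ?_, fun q hq => Finset.mem_inter.mpr ⟨a2 q hq, b2 q hq⟩, ?_⟩
      · rcases Finset.mem_insert.mp hq with rfl | hq
        · exact b1 (Finset.mem_inter.mp hq').2
        · exact a1 q hq (Finset.mem_inter.mp hq').1
      · have := hsub T1 T2
        have := hρ b hb (T1 ∪ T2)
        have := hρ b hb (T1 ∩ T2)
        have := Finset.sum_union_inter (s₁ := T1) (s₂ := T2) (f := b)
        omega
  obtain ⟨T, t1, t2, t3⟩ := hB (Finset.univ.filter fun p => x p < b p) (by simp)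
  have hT : ∀ j ∈ T, b j ≤ x j := by
    intro j hj
    by_contra h
    exact t1 j (by simpa using h) hj
  have hnq : ∀ q, x q ≤ b q := by
    intro q
    by_contra h
    push Not at h
    have := Finset.sum_lt_sum hT ⟨q, t2 q h, h⟩
    have := hx2 T
    omega
  have : x = b := by
    have h := (Finset.sum_eq_sum_iff_of_le (s := Finset.univ) (f := x) (g := b)
      (fun j _ => hnq j)).mp (by rw [hx1, hdeg b hb])
    funext j; exact h j (Finset.mem_univ _)
  rw [this]; exact hb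

end

end Pool.Agent.Lib.MP_8dad47_al
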