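import Mathlib

/-! Reduced homology of matroid complexes, by deletion and contraction. -/

namespace Pool.Agent.Lib.MP_8dad47_al

open Finset

variable {n : ℕ} {K : Type*} [Field K]

/-- the sign of `j` relative to `G` -/
def sgn (K : Type*) [Field K] (j : Fin n) (G : Finset (Fin n)) : K :=
  (-1) ^ (G.filter (· < j)).card

theorem sgn_mul_self (j : Fin n) (G : Finset (Fin n)) : sgn K j G * sgn K j G = 1 := by
  unfold sgn
  rw [← mul_pow]; simp

theorem sgn_ne_zero (j : Fin n) (G : Finset (Fin n)) : sgn K j G ≠ 0 := by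
  intro h
  have := sgn_mul_self (K := K) j G
  rw [h] at this; simp at this

theorem sgn_insert {e : Fin n} {G : Finset (Fin n)} (he : e ∉ G) (j : Fin n) :
    sgn K j (insert e G) = if e < j then - sgn K j G else sgn K j G := by
  unfold sgn
  rw [Finset.filter_insert]
  split_ifs with h
  · rw [Finset.card_insert_of_notMem (fun h' => he (Finset.mem_filter.mp h').1), pow_succ]; ring
  · rfl

theorem sgn_swap {e j : Fin n} {G : Finset (Fin n)} (he : e ∉ G) (hj : j ∉ G) (hej : e ≠ j) :
    sgn K j G * sgn K e (insert j G) = - (sgn K e G * sgn K j (insert e G)) := by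
  rw [sgn_insert he, sgn_insert hj]
  rcases lt_or_gt_of_ne hej with h | h
  · rw [if_pos h, if_neg (not_lt.mpr h.le)]; ring
  · rw [if_pos h, if_neg (not_lt.mpr h.le)]; ring

/-- simplicial boundary -/
def bd (c : Finset (Fin n) → K) : Finset (Fin n) → K :=
  fun G => ∑ j ∈ Gᶜ, sgn K j G * c (insert j G)

/-- contraction with `e` -/
def ctr (e : Fin n) (c : Finset (Fin n) → K) : Finset (Fin n) → K :=
  fun G => if e ∈ G then 0 else sgn K e G * c (insert e G)

/-- wedge with `e` -/
def wdg (e : Fin n) (c : Finset (Fin n) → K) : Finset (Fin n) → K :=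
  fun F => if e ∈ F then sgn K e (F.erase e) * c (F.erase e) else 0

theorem bd_add (c c' : Finset (Fin n) → K) : bd (c + c') = bd c + bd c' := by
  funext G; simp [bd, mul_add, Finset.sum_add_distrib]

theorem bd_sub (c c' : Finset (Fin n) → K) : bd (c - c') = bd c - bd c' := by
  funext G; simp [bd, mul_sub, Finset.sum_sub_distrib]

theorem bd_zero : bd (0 : Finset (Fin n) → K) = 0 := by
  funext G; simp [bd]

theorem wdg_zero (e : Fin n) : wdg e (0 : Finset (Fin n) → K) = 0 := by
  funext G; simp [wdg]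

theorem ctr_zero (e : Fin n) : ctr e (0 : Finset (Fin n) → K) = 0 := by
  funext G; simp [ctr]

theorem bd_wdg (e : Fin n) (c : Finset (Fin n) → K) : bd (wdg e c) = c - wdg e (bd c) := by
  funext G
  by_cases he : e ∈ G
  · obtain ⟨H, hH, rfl⟩ : ∃ H, e ∉ H ∧ G = insert e H :=
      ⟨G.erase e, Finset.notMem_erase _ _, (Finset.insert_erase he).symm⟩
    have h1 : Hᶜ = insert e (insert e H)ᶜ := by
      ext x
      simp only [Finset.mem_compl, Finset.mem_insert]
      by_cases hx : x = e
      · subst hx; simp [hH]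
      · simp [hx]
    simp only [bd, wdg, Pi.sub_apply, he, if_true, Finset.erase_insert hH]
    rw [h1, Finset.sum_insert (by simp), mul_add, ← mul_assoc, sgn_mul_self, one_mul,
      Finset.mul_sum, sub_add_cancel_left, ← Finset.sum_neg_distrib]
    refine Finset.sum_congr rfl fun j hj => ?_
    have hj' : j ∉ insert e H := Finset.mem_compl.mp hj
    have hje : j ≠ e := fun h => hj' (h ▸ Finset.mem_insert_self _ _)
    have hjH : j ∉ H := fun h => hj' (Finset.mem_insert_of_mem h)
    have h2 : (insert j (insert e H)).erase e = insert j H := by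
      rw [Finset.insert_comm, Finset.erase_insert]
      simp [hH, hje.symm]
    rw [if_pos (by simp), h2, ← mul_assoc, ← mul_assoc]
    have h3 := sgn_swap (K := K) hH hjH hje.symm
    have h4 := sgn_mul_self (K := K) e H
    have h5 := sgn_mul_self (K := K) j H
    have h6 : sgn K j (insert e H) * sgn K e (insert j H) = - (sgn K e H * sgn K j H) := by
      rw [sgn_insert hH, sgn_insert hjH]
      rcases lt_or_gt_of_ne hje with h | h
      · rw [if_pos h, if_neg (not_lt.mpr h.le)]; ring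
      · rw [if_pos h, if_neg (not_lt.mpr h.le)]; ring
    rw [h6]; ring
  · simp only [bd, wdg, Pi.sub_apply, he, if_false, sub_zero]
    rw [Finset.sum_eq_single e]
    · rw [if_pos (Finset.mem_insert_self _ _), Finset.erase_insert he, ← mul_assoc,
        sgn_mul_self, one_mul]
    · intro j _ hje
      rw [if_neg (by simp [he, hje.symm]), mul_zero]
    · intro h; exact absurd (Finset.mem_compl.mpr he) h

theorem bd_ctr (e : Fin n) (c : Finset (Fin n) → K) : bd (ctr e c) = - ctr e (bd c) := by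
  funext G
  by_cases he : e ∈ G
  · simp [bd, ctr, he]
  · have h1 : Gᶜ = insert e (insert e G)ᶜ := by
      ext x
      simp only [Finset.mem_compl, Finset.mem_insert]
      by_cases hx : x = e
      · subst hx; simp [he]
      · simp [hx]
    simp only [bd, ctr, Pi.neg_apply, he, if_false]
    rw [h1, Finset.sum_insert (by simp), if_pos (Finset.mem_insert_self _ _), mul_zero, zero_add,
      Finset.mul_sum, ← Finset.sum_neg_distrib]
    refine Finset.sum_congr rfl fun j hj => ?_
    have hj' : j ∉ insert e G := Finset.mem_compl.mp hj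
    have hje : j ≠ e := fun h => hj' (h ▸ Finset.mem_insert_self _ _)
    have hjG : j ∉ G := fun h => hj' (Finset.mem_insert_of_mem h)
    rw [if_neg (by simp [he, hje.symm]), ← mul_assoc, sgn_swap he hjG hje.symm,
      Finset.insert_comm e j G]
    ring

theorem wdg_ctr (e : Fin n) (c : Finset (Fin n) → K) (F : Finset (Fin n)) :
    wdg e (ctr e c) F = if e ∈ F then c F else 0 := by
  by_cases he : e ∈ F
  · simp only [wdg, ctr, he, if_true, Finset.notMem_erase, if_false, Finset.insert_erase he]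
    rw [← mul_assoc, sgn_mul_self, one_mul]
  · simp [wdg, he]

/-- `c` is supported on the faces of `Δ` with `i` elements -/
def Supp (Δ : Finset (Fin n) → Prop) (i : ℕ) (c : Finset (Fin n) → K) : Prop :=
  ∀ F, c F ≠ 0 → Δ F ∧ F.card = i

/-- no homology at the faces with `i` elements -/
def Exact (K : Type*) [Field K] (Δ : Finset (Fin n) → Prop) (i : ℕ) : Prop :=
  ∀ c : Finset (Fin n) → K, Supp Δ i c → bd c = 0 → ∃ w, Supp Δ (i + 1) w ∧ bd w = c

/-- deletion -/
def del (e : Fin n) (Δ : Finset (Fin n) → Prop) : Finset (Fin n) → Prop := fun F => Δ F ∧ e ∉ F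

/-- link -/
def lnk (e : Fin n) (Δ : Finset (Fin n) → Prop) : Finset (Fin n) → Prop :=
  fun F => Δ (insert e F) ∧ e ∉ F

theorem Supp.add {Δ : Finset (Fin n) → Prop} {i : ℕ} {c c' : Finset (Fin n) → K}
    (h : Supp Δ i c) (h' : Supp Δ i c') : Supp Δ i (c + c') := by
  intro F hF
  by_cases h1 : c F = 0
  · exact h' F (by simpa [h1] using hF)
  · exact h F h1

theorem Supp.sub {Δ : Finset (Fin n) → Prop} {i : ℕ} {c c' : Finset (Fin n) → K}
    (h : Supp Δ i c) (h' : Supp Δ i c') : Supp Δ i (c - c') := by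
  intro F hF
  by_cases h1 : c F = 0
  · exact h' F (by simpa [h1] using hF)
  · exact h F h1

theorem Supp.mono {Δ Δ' : Finset (Fin n) → Prop} {i : ℕ} {c : Finset (Fin n) → K}
    (h : Supp Δ i c) (hΔ : ∀ F, Δ F → Δ' F) : Supp Δ' i c :=
  fun F hF => ⟨hΔ F (h F hF).1, (h F hF).2⟩

theorem Supp.wdg {Δ : Finset (Fin n) → Prop} {i : ℕ} {c : Finset (Fin n) → K} {e : Fin n}
    (h : Supp (fun F => Δ (insert e F)) i c) : Supp Δ (i + 1) (wdg e c) := by
  intro F hF
  unfold Pool.Agent.Lib.MP_8dad47_al.wdg at hF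
  by_cases he : e ∈ F
  · rw [if_pos he] at hF
    obtain ⟨h1, h2⟩ := h _ (right_ne_zero_of_mul hF)
    rw [Finset.insert_erase he] at h1
    exact ⟨h1, by rw [← h2, Finset.card_erase_add_one he]⟩
  · simp [he] at hF

theorem exact_of_cone {Δ : Finset (Fin n) → Prop} {e : Fin n}
    (h : ∀ F, Δ F → Δ (insert e F)) (i : ℕ) : Exact K Δ i := by
  intro c hc h0
  exact ⟨wdg e c, Supp.wdg (hc.mono h), by rw [bd_wdg, h0, wdg_zero, sub_zero]⟩

theorem exact_of_void {Δ : Finset (Fin n) → Prop} {i : ℕ}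
    (h : ∀ F, Δ F → F.card ≠ i) : Exact K Δ i := by
  intro c hc _
  refine ⟨0, fun F hF => absurd rfl hF, ?_⟩
  rw [bd_zero]
  funext F
  by_contra hF
  exact h F (hc F (Ne.symm hF)).1 (hc F (Ne.symm hF)).2

theorem exact_split {Δ : Finset (Fin n) → Prop} (hd : ∀ F G, Δ G → F ⊆ G → Δ F) (e : Fin n)
    {i : ℕ} (h1 : Exact K (del e Δ) i) (h2 : ∀ i', i = i' + 1 → Exact K (lnk e Δ) i') :
    Exact K Δ i := by
  intro c hc h0
  rcases i with _ | i
  · obtain ⟨w, hw, hw'⟩ := h1 c (fun F hF => ⟨⟨(hc F hF).1, by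
      rw [Finset.card_eq_zero.mp (hc F hF).2]; simp⟩, (hc F hF).2⟩) h0
    exact ⟨w, hw.mono fun F hF => hF.1, hw'⟩
  obtain ⟨u, hu, hu'⟩ := h2 i rfl (ctr e c) (by
    intro F hF
    unfold ctr at hF
    by_cases he : e ∈ F
    · simp [he] at hF
    · rw [if_neg he] at hF
      obtain ⟨a1, a2⟩ := hc _ (right_ne_zero_of_mul hF)
      rw [Finset.card_insert_of_notMem he] at a2
      exact ⟨⟨a1, he⟩, by omega⟩) (by rw [bd_ctr, h0, ctr_zero, neg_zero])
  obtain ⟨w, hw, hw'⟩ := h1 (u + (c - wdg e (ctr e c))) (by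
    apply Supp.add
    · exact hu.mono fun F hF => ⟨hd _ _ hF.1 (Finset.subset_insert _ _), hF.2⟩
    · intro F hF
      rw [Pi.sub_apply, wdg_ctr] at hF
      by_cases he : e ∈ F
      · simp [he] at hF
      · rw [if_neg he, sub_zero] at hF
        exact ⟨⟨(hc F hF).1, he⟩, (hc F hF).2⟩) (by
    rw [bd_add, bd_sub, bd_wdg, bd_ctr, h0, ctr_zero, neg_zero, wdg_zero, hu']
    simp)
  refine ⟨w - wdg e u, Supp.sub (hw.mono fun F hF => hF.1)
    (Supp.wdg (hu.mono fun F hF => hF.1)), ?_⟩
  rw [bd_sub, hw', bd_wdg, hu']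
  abel

/-- independence complexes of matroids (possibly void) -/
structure IsMat (Δ : Finset (Fin n) → Prop) : Prop where
  down : ∀ F G, Δ G → F ⊆ G → Δ F
  aug : ∀ F G, Δ F → Δ G → F.card < G.card → ∃ e ∈ G, e ∉ F ∧ Δ (insert e F)

theorem IsMat.del {Δ : Finset (Fin n) → Prop} (h : IsMat Δ) (e : Fin n) : IsMat (del e Δ) where
  down F G hG hFG := ⟨h.down F G hG.1 hFG, fun he => hG.2 (hFG he)⟩
  aug F G hF hG hlt := by
    obtain ⟨x, hx, hx', hx''⟩ := h.aug F G hF.1 hG.1 hlt
    refine ⟨x, hx, hx', hx'', fun he => ?_⟩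
    rcases Finset.mem_insert.mp he with rfl | he
    · exact hG.2 hx
    · exact hF.2 he

theorem IsMat.lnk {Δ : Finset (Fin n) → Prop} (h : IsMat Δ) (e : Fin n) : IsMat (lnk e Δ) where
  down F G hG hFG :=
    ⟨h.down _ _ hG.1 (Finset.insert_subset_insert _ hFG), fun he => hG.2 (hFG he)⟩
  aug F G hF hG hlt := by
    obtain ⟨x, hx, hx', hx''⟩ := h.aug _ _ hF.1 hG.1 (by
      rw [Finset.card_insert_of_notMem hF.2, Finset.card_insert_of_notMem hG.2]; omega)
    have hxe : x ≠ e := fun h => hx' (h ▸ Finset.mem_insert_self _ _)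
    refine ⟨x, (Finset.mem_insert.mp hx).resolve_left hxe,
      fun h => hx' (Finset.mem_insert_of_mem h), by rwa [Finset.insert_comm], fun he => ?_⟩
    rcases Finset.mem_insert.mp he with rfl | he
    · exact hxe rfl
    · exact hF.2 he

theorem IsMat.extend {Δ : Finset (Fin n) → Prop} (h : IsMat Δ) {G : Finset (Fin n)} (hG : Δ G) :
    ∀ (m : ℕ) (F : Finset (Fin n)), Δ F → G.card ≤ F.card + m →
      ∃ F', Δ F' ∧ F ⊆ F' ∧ F' ⊆ F ∪ G ∧ G.card ≤ F'.card := by
  intro m
  induction m with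
  | zero => exact fun F hF hc => ⟨F, hF, Finset.Subset.refl _, Finset.subset_union_left, hc⟩
  | succ m ih =>
    intro F hF hc
    by_cases hlt : F.card < G.card
    · obtain ⟨e, he, he', he''⟩ := h.aug F G hF hG hlt
      obtain ⟨F', a1, a2, a3, a4⟩ := ih _ he'' (by
        rw [Finset.card_insert_of_notMem he']; omega)
      refine ⟨F', a1, (Finset.subset_insert _ _).trans a2, a3.trans ?_, a4⟩
      intro x hx
      simp only [Finset.mem_union, Finset.mem_insert] at hx ⊢
      rcases hx with (rfl | hx) | hx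
      · exact Or.inr he
      · exact Or.inl hx
      · exact Or.inr hx
    · exact ⟨F, hF, Finset.Subset.refl _, Finset.subset_union_left, by omega⟩

theorem IsMat.extend' {Δ : Finset (Fin n) → Prop} (h : IsMat Δ) {F G : Finset (Fin n)}
    (hF : Δ F) (hG : Δ G) : ∃ F', Δ F' ∧ F ⊆ F' ∧ F' ⊆ F ∪ G ∧ G.card ≤ F'.card :=
  h.extend hG G.card F hF (by omega)

theorem exact_below (E : Finset (Fin n)) : ∀ (Δ : Finset (Fin n) → Prop), IsMat Δ →
    (∀ F, Δ F → F ⊆ E) → ∀ i, (∃ F, Δ F ∧ i < F.card) → Exact K Δ i := by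
  induction E using Finset.induction_on with
  | empty =>
    rintro Δ - hE i ⟨F, hF, hi⟩
    rw [Finset.subset_empty.mp (hE F hF)] at hi
    simp at hi
  | insert e E he ih =>
    rintro Δ hΔ hE i ⟨F, hF, hi⟩
    by_cases hcone : ∀ F, Δ F → Δ (insert e F)
    · exact exact_of_cone hcone i
    push Not at hcone
    obtain ⟨F0, hF0, hF0'⟩ := hcone
    refine exact_split hΔ.down e (ih _ (hΔ.del e) (fun G hG =>
      (Finset.subset_insert_iff_of_notMem hG.2).mp (hE G hG.1)) i ?_) ?_
    · obtain ⟨F', a1, a2, -, a4⟩ := hΔ.extend' hF0 hF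
      exact ⟨F', ⟨a1, fun h => hF0' (hΔ.down _ _ a1 (Finset.insert_subset h a2))⟩, by omega⟩
    · rintro i' rfl
      by_cases hv : Δ {e}
      · refine ih _ (hΔ.lnk e) (fun G hG => (Finset.subset_insert_iff_of_notMem hG.2).mp
          ((Finset.subset_insert _ _).trans (hE _ hG.1))) i' ?_
        obtain ⟨F', a1, a2, -, a4⟩ := hΔ.extend' hv hF
        have he' : e ∈ F' := a2 (Finset.mem_singleton_self _)
        refine ⟨F'.erase e, ⟨by rwa [Finset.insert_erase he'], Finset.notMem_erase _ _⟩, ?_⟩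
        have := Finset.card_erase_add_one he'
        omega
      · exact exact_of_void fun G hG _ => hv (hΔ.down _ _ hG.1 (by simp))

theorem exists_top_cycle (i : ℕ) : ∀ (Δ : Finset (Fin n) → Prop), IsMat Δ →
    (∀ F, Δ F → F.card ≤ i) → (∃ F, Δ F ∧ F.card = i) →
    (∀ j, ∃ F, Δ F ∧ F.card = i ∧ j ∉ F) →
    ∃ c : Finset (Fin n) → K, c ≠ 0 ∧ Supp Δ i c ∧ bd c = 0 := by
  induction i with
  | zero =>
    rintro Δ - - ⟨F, hF, h0⟩ -
    rw [Finset.card_eq_zero] at h0
    subst h0
    refine ⟨fun G => if G = ∅ then 1 else 0, fun h => ?_, fun G hG => ?_, ?_⟩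
    · have := congrFun h ∅
      simp at this
    · have : G = ∅ := by
        by_contra h
        simp [h] at hG
      subst this
      exact ⟨hF, rfl⟩
    · funext G
      simp [bd]
  | succ i ih =>
    rintro Δ hΔ hle ⟨F, hF, hc⟩ hno
    obtain ⟨e, he⟩ : F.Nonempty := Finset.card_pos.mp (by omega)
    have hv : Δ {e} := hΔ.down _ _ hF (by simpa using he)
    have hl : ∀ G, Δ G → G.card = i + 1 → ∃ G', lnk e Δ G' ∧ G'.card = i ∧ G' ⊆ G := by
      intro G hG hGc
      obtain ⟨F', a1, a2, a3, a4⟩ := hΔ.extend' hv hG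
      have he' : e ∈ F' := a2 (Finset.mem_singleton_self _)
      have := Finset.card_erase_add_one he'
      have := hle _ a1
      refine ⟨F'.erase e, ⟨by rwa [Finset.insert_erase he'], Finset.notMem_erase _ _⟩,
        by omega, fun x hx => ?_⟩
      have h1 := a3 (Finset.mem_of_mem_erase hx)
      rcases Finset.mem_union.mp h1 with h | h
      · exact absurd (Finset.mem_singleton.mp h) (Finset.ne_of_mem_erase hx)
      · exact h
    obtain ⟨u, hu0, hu, hu'⟩ := ih (lnk e Δ) (hΔ.lnk e) (fun G hG => by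
        have := hle _ hG.1
        rw [Finset.card_insert_of_notMem hG.2] at this
        omega) (by
        obtain ⟨G', a1, a2, -⟩ := hl F hF hc
        exact ⟨G', a1, a2⟩) (fun j => by
        obtain ⟨G, a1, a2, a3⟩ := hno j
        obtain ⟨G', b1, b2, b3⟩ := hl G a1 a2
        exact ⟨G', b1, b2, fun h => a3 (b3 h)⟩)
    obtain ⟨w, hw, hw'⟩ := exact_below (K := K) Finset.univ (del e Δ) (hΔ.del e)
      (fun _ _ => Finset.subset_univ _) i (by
        obtain ⟨G, a1, a2, a3⟩ := hno e
        exact ⟨G, ⟨a1, a3⟩, by omega⟩) u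
      (hu.mono fun G hG => ⟨hΔ.down _ _ hG.1 (Finset.subset_insert _ _), hG.2⟩) hu'
    refine ⟨wdg e u - w, fun h => hu0 ?_, Supp.sub (Supp.wdg (hu.mono fun G hG => hG.1))
      (hw.mono fun G hG => hG.1), by rw [bd_sub, bd_wdg, hu', hw', wdg_zero]; simp⟩
    funext G
    by_contra hG
    have hG' := (hu G hG).1.2
    have h1 := congrFun h (insert e G)
    have h2 : w (insert e G) = 0 := by
      by_contra h2
      exact (hw _ h2).1.2 (Finset.mem_insert_self _ _)
    simp only [Pi.sub_apply, h2, sub_zero, wdg, Finset.mem_insert_self, if_true,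
      Finset.erase_insert hG', Pi.zero_apply] at h1
    exact mul_ne_zero (sgn_ne_zero _ _) hG h1

/-- A matroid complex has homology at the faces with `i` elements iff its rank is `i` and it has
no coloop. -/
theorem not_exact_iff {Δ : Finset (Fin n) → Prop} (hΔ : IsMat Δ) (i : ℕ) :
    ¬ Exact K Δ i ↔ (∀ F, Δ F → F.card ≤ i) ∧ (∃ F, Δ F ∧ F.card = i) ∧
      ∀ j, ∃ F, Δ F ∧ F.card = i ∧ j ∉ F := by
  constructor
  · intro h
    have h1 : ∀ F, Δ F → F.card ≤ i := by
      intro F hF
      by_contra hlt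
      exact h (exact_below Finset.univ Δ hΔ (fun _ _ => Finset.subset_univ _) i
        ⟨F, hF, by omega⟩)
    have h2 : ∃ F, Δ F ∧ F.card = i := by
      by_contra hno
      exact h (exact_of_void fun F hF hc => hno ⟨F, hF, hc⟩)
    refine ⟨h1, h2, fun j => ?_⟩
    by_contra hno
    push Not at hno
    obtain ⟨G, hG, hGc⟩ := h2
    refine h (exact_of_cone (e := j) (fun F hF => ?_) i)
    obtain ⟨F', a1, a2, -, a4⟩ := hΔ.extend' hF hG
    have := h1 _ a1
    exact hΔ.down _ _ a1 (Finset.insert_subset (hno F' a1 (by omega)) a2)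
  · rintro ⟨h1, h2, h3⟩ hex
    obtain ⟨c, hc0, hc, hc'⟩ := exists_top_cycle (K := K) i Δ hΔ h1 h2 h3
    obtain ⟨w, hw, hw'⟩ := hex c hc hc'
    have : w = 0 := by
      funext F
      by_contra hF
      have := h1 F (hw F hF).1
      have := (hw F hF).2
      omega
    rw [this, bd_zero] at hw'
    exact hc0 hw'.symm

end Pool.Agent.Lib.MP_8dad47_al
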