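import Pool.Agent.Lib.MP_8dad47_al.Submod
import Pool.Agent.Lib.MP_8dad47_al.Homology

/-! The multidegrees of the syzygies of a polymatroidal ideal, in terms of the rank function. -/

namespace Pool.Agent.Lib.MP_8dad47_al

open Finset

variable {n : ℕ}

/-- rank functions of total rank `D` -/
structure IsRank (r : Finset (Fin n) → ℤ) (D : ℤ) : Prop where
  sub : ∀ X Y, r (X ∪ Y) + r (X ∩ Y) ≤ r X + r Y
  empty : r ∅ = 0
  univ : r Finset.univ = D
  le : ∀ S, r S ≤ D

/-- integer points of the base polytope -/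
def Base (r : Finset (Fin n) → ℤ) (D : ℤ) (x : Fin n → ℤ) : Prop :=
  ∑ j, x j = D ∧ ∀ S, ∑ j ∈ S, x j ≤ r S

/-- integer points above the base polytope -/
def Up (r : Finset (Fin n) → ℤ) (D : ℤ) (x : Fin n → ℤ) : Prop :=
  ∀ S, D ≤ ∑ j ∈ S, x j + r Sᶜ

/-- multidegrees of the `i`-th syzygies -/
def HSet (r : Finset (Fin n) → ℤ) (D : ℤ) (i : ℕ) (a : Fin n → ℤ) : Prop :=
  ∑ j, a j = D + i ∧ ∀ S : Finset (Fin n), S.Nonempty →
    ∑ j ∈ S, a j ≤ r S + min (i : ℤ) ((S.card : ℤ) - 1)

/-- upper Koszul complex -/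
def Kos (r : Finset (Fin n) → ℤ) (D : ℤ) (a : Fin n → ℤ) (F : Finset (Fin n)) : Prop :=
  ∀ S, D + ((S ∩ F).card : ℤ) ≤ ∑ j ∈ S, a j + r Sᶜ

theorem IsRank.smul {r : Finset (Fin n) → ℤ} {D : ℤ} (h : IsRank r D) (k : ℕ) :
    IsRank (fun S => k * r S) (k * D) where
  sub X Y := by
    have := mul_le_mul_of_nonneg_left (h.sub X Y) (Int.natCast_nonneg k)
    linarith
  empty := by simp [h.empty]
  univ := by simp [h.univ]
  le S := mul_le_mul_of_nonneg_left (h.le S) (Int.natCast_nonneg k)

theorem Base.up {r : Finset (Fin n) → ℤ} {D : ℤ} {x : Fin n → ℤ} (h : Base r D x) :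
    Up r D x := by
  intro S
  have := Finset.sum_add_sum_compl S x
  have := h.2 Sᶜ
  have := h.1
  omega

theorem Up.nonneg {r : Finset (Fin n) → ℤ} {D : ℤ} (hr : IsRank r D) {x : Fin n → ℤ}
    (h : Up r D x) (j : Fin n) : 0 ≤ x j := by
  have := h {j}
  have := hr.le {j}ᶜ
  simp only [Finset.sum_singleton] at *
  omega

theorem Up.mono {r : Finset (Fin n) → ℤ} {D : ℤ} {x y : Fin n → ℤ} (h : Up r D x)
    (hxy : ∀ j, x j ≤ y j) : Up r D y := by
  intro S
  have := h S
  have : ∑ j ∈ S, x j ≤ ∑ j ∈ S, y j := Finset.sum_le_sum fun j _ => hxy j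
  omega

/-- a union of tight sets is tight -/
theorem exists_tight {r : Finset (Fin n) → ℤ} {D : ℤ} (hr : IsRank r D) {x : Fin n → ℤ}
    (hx : Up r D x) (P : Finset (Fin n)) :
    (∀ e ∈ P, ∃ S, e ∈ S ∧ ∑ j ∈ S, x j + r Sᶜ ≤ D) →
      ∃ S, P ⊆ S ∧ ∑ j ∈ S, x j + r Sᶜ = D := by
  induction P using Finset.induction_on with
  | empty => exact fun _ => ⟨∅, Finset.Subset.refl _, by simp [hr.univ]⟩
  | insert e P _ ih =>
    intro h
    obtain ⟨S, a1, a2⟩ := ih fun q hq => h q (Finset.mem_insert_of_mem hq)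
    obtain ⟨T, b1, b2⟩ := h e (Finset.mem_insert_self _ _)
    refine ⟨S ∪ T, Finset.insert_subset (Finset.mem_union_right _ b1)
      (a1.trans Finset.subset_union_left), ?_⟩
    have h1 := hr.sub Sᶜ Tᶜ
    rw [← Finset.compl_inter, ← Finset.compl_union] at h1
    have := hx (S ∪ T)
    have := hx (S ∩ T)
    have := Finset.sum_union_inter (s₁ := S) (s₂ := T) (f := x)
    omega

theorem Up.exists_base {r : Finset (Fin n) → ℤ} {D : ℤ} (hr : IsRank r D) (m : ℕ) :
    ∀ x : Fin n → ℤ, Up r D x → ∑ j, x j ≤ D + m → ∃ b, Base r D b ∧ ∀ j, b j ≤ x j := by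
  have hbase : ∀ x : Fin n → ℤ, Up r D x → ∑ j, x j ≤ D → Base r D x := by
    intro x hx hs
    have h1 := hx Finset.univ
    rw [Finset.compl_univ, hr.empty] at h1
    refine ⟨by omega, fun S => ?_⟩
    have h2 := hx Sᶜ
    rw [compl_compl] at h2
    have := Finset.sum_add_sum_compl S x
    omega
  induction m with
  | zero => exact fun x hx hs => ⟨x, hbase x hx (by simpa using hs), fun _ => le_rfl⟩
  | succ m ih =>
    intro x hx hs
    by_cases hall : ∀ e ∈ (Finset.univ : Finset (Fin n)), ∃ S, e ∈ S ∧ ∑ j ∈ S, x j + r Sᶜ ≤ D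
    · obtain ⟨S, a1, a2⟩ := exists_tight hr hx _ hall
      rw [Finset.univ_subset_iff.mp a1, Finset.compl_univ, hr.empty] at a2
      exact ⟨x, hbase x hx (by omega), fun _ => le_rfl⟩
    · push Not at hall
      obtain ⟨e, -, he⟩ := hall
      have key : ∀ S : Finset (Fin n), ∑ j ∈ S, (x j - if j = e then 1 else 0) =
          ∑ j ∈ S, x j - if e ∈ S then 1 else 0 := fun S => by
        simp only [Finset.sum_sub_distrib, Finset.sum_ite_eq']
      obtain ⟨b, hb, hb'⟩ := ih (fun j => x j - if j = e then 1 else 0) (fun S => by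
        rw [key]
        split_ifs with h
        · have := he S h; omega
        · have := hx S; omega) (by
        rw [key, if_pos (Finset.mem_univ _)]
        push_cast at hs
        omega)
      refine ⟨b, hb, fun j => (hb' j).trans ?_⟩
      split_ifs <;> omega

theorem up_iff {r : Finset (Fin n) → ℤ} {D : ℤ} (hr : IsRank r D) (x : Fin n → ℤ) :
    Up r D x ↔ ∃ b, Base r D b ∧ ∀ j, b j ≤ x j := by
  constructor
  · intro hx
    exact Up.exists_base hr (∑ j, x j - D).toNat x hx (by omega)
  · rintro ⟨b, hb, h⟩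
    exact hb.up.mono h

theorem sum_ind (S F : Finset (Fin n)) :
    ∑ j ∈ S, (if j ∈ F then (1 : ℤ) else 0) = (S ∩ F).card := by
  rw [Finset.sum_ite_mem]; simp

theorem kos_iff (r : Finset (Fin n) → ℤ) (D : ℤ) (a : Fin n → ℤ) (F : Finset (Fin n)) :
    Kos r D a F ↔ Up r D (fun j => a j - if j ∈ F then 1 else 0) := by
  unfold Kos Up
  simp only [Finset.sum_sub_distrib, sum_ind]
  exact forall_congr' fun S => by omega

/-- if no element of `P` can be added to the face `F`, then `P` lies in an `F`-tight set -/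
theorem kos_tight {r : Finset (Fin n) → ℤ} {D : ℤ} (hr : IsRank r D) {a : Fin n → ℤ}
    {F : Finset (Fin n)} (hF : Kos r D a F) (P : Finset (Fin n))
    (hP : ∀ e ∈ P, e ∉ F ∧ ¬ Kos r D a (insert e F)) :
    ∃ S, P ⊆ S ∧ ∑ j ∈ S, a j + r Sᶜ = D + ((S ∩ F).card : ℤ) := by
  obtain ⟨S, a1, a2⟩ := exists_tight hr ((kos_iff r D a F).mp hF) P (by
    intro e he
    obtain ⟨h1, h2⟩ := hP e he
    unfold Kos at h2
    push Not at h2
    obtain ⟨S, hS⟩ := h2
    have h3 := hF S
    by_cases heS : e ∈ S
    · refine ⟨S, heS, ?_⟩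
      rw [Finset.inter_insert_of_mem heS,
        Finset.card_insert_of_notMem (fun h => h1 (Finset.mem_inter.mp h).2)] at hS
      simp only [Finset.sum_sub_distrib, sum_ind]
      push_cast at hS
      omega
    · rw [Finset.inter_insert_of_notMem heS] at hS
      omega)
  simp only [Finset.sum_sub_distrib, sum_ind] at a2
  exact ⟨S, a1, by omega⟩

theorem kos_isMat {r : Finset (Fin n) → ℤ} {D : ℤ} (hr : IsRank r D) (a : Fin n → ℤ) :
    IsMat (Kos r D a) where
  down F G hG hFG S := by
    have := hG S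
    have : (S ∩ F).card ≤ (S ∩ G).card :=
      Finset.card_le_card (Finset.inter_subset_inter_left hFG)
    omega
  aug F G hF hG hlt := by
    by_contra hno
    push Not at hno
    obtain ⟨S, a1, a2⟩ := kos_tight hr hF (G \ F) fun e he =>
      ⟨(Finset.mem_sdiff.mp he).2, hno e (Finset.mem_sdiff.mp he).1 (Finset.mem_sdiff.mp he).2⟩
    have h1 := hG S
    have h2 := Finset.card_sdiff_add_card_inter F S
    have h3 := Finset.card_sdiff_add_card_inter G S
    have h4 : (G \ S).card ≤ (F \ S).card := Finset.card_le_card fun x hx => by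
      rw [Finset.mem_sdiff] at hx ⊢
      refine ⟨?_, hx.2⟩
      by_contra h
      exact hx.2 (a1 (Finset.mem_sdiff.mpr ⟨hx.1, h⟩))
    rw [Finset.inter_comm] at h2 h3
    omega

theorem hset_iff {r : Finset (Fin n) → ℤ} {D : ℤ} (hr : IsRank r D) (hD : 0 ≤ D) {i : ℕ}
    (hi : 0 < i) (a : Fin n → ℤ) :
    HSet r D i a ↔ (∀ F, Kos r D a F → F.card ≤ i) ∧ (∃ F, Kos r D a F ∧ F.card = i) ∧
      ∀ j, ∃ F, Kos r D a F ∧ F.card = i ∧ j ∉ F := by
  constructor
  · rintro ⟨h1, h2⟩
    have hle : ∀ F, Kos r D a F → F.card ≤ i := by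
      intro F hF
      have := hF Finset.univ
      rw [Finset.univ_inter, Finset.compl_univ, hr.empty] at this
      omega
    have h0 : Kos r D a ∅ := by
      intro S
      have h3 := Finset.sum_add_sum_compl S a
      rcases (Sᶜ).eq_empty_or_nonempty with h | h
      · rw [h] at h3 ⊢
        simp only [Finset.inter_empty, Finset.card_empty, Finset.sum_empty, hr.empty] at h3 ⊢
        omega
      · have := h2 _ h
        simp only [Finset.inter_empty, Finset.card_empty]
        omega
    have h3 : ∀ j, ∃ F, Kos r D a F ∧ F.card = i ∧ j ∉ F := by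
      intro j
      classical
      obtain ⟨F, hF, hmax⟩ := Finset.exists_max_image
        (Finset.univ.filter fun F => Kos r D a F ∧ j ∉ F) Finset.card ⟨∅, by simp [h0]⟩
      simp only [Finset.mem_filter, Finset.mem_univ, true_and] at hF hmax
      refine ⟨F, hF.1, le_antisymm (hle F hF.1) ?_, hF.2⟩
      obtain ⟨S, a1, a2⟩ := kos_tight hr hF.1 (insert j F)ᶜ fun e he => by
        simp only [Finset.mem_compl, Finset.mem_insert, not_or] at he
        refine ⟨he.2, fun h => ?_⟩
        have := hmax (insert e F) ⟨h, by simp [hF.2, Ne.symm he.1]⟩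
        rw [Finset.card_insert_of_notMem he.2] at this
        omega
      have h3 := Finset.sum_add_sum_compl S a
      have h4 := Finset.card_sdiff_add_card_inter F S
      rw [Finset.inter_comm] at h4
      rcases (Sᶜ).eq_empty_or_nonempty with h | h
      · rw [h] at h3 a2
        simp only [Finset.sum_empty, hr.empty] at h3 a2
        omega
      · have h5 := h2 _ h
        have h6 : (Sᶜ).card ≤ (insert j (F \ S)).card := Finset.card_le_card fun x hx => by
          rw [Finset.mem_compl] at hx
          have : x ∈ insert j F := by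
            by_contra h'
            exact hx (a1 (Finset.mem_compl.mpr h'))
          rcases Finset.mem_insert.mp this with h' | h'
          · exact h' ▸ Finset.mem_insert_self _ _
          · exact Finset.mem_insert_of_mem (Finset.mem_sdiff.mpr ⟨h', hx⟩)
        have h7 := Finset.card_insert_le j (F \ S)
        omega
    refine ⟨hle, ?_, h3⟩
    rcases Nat.eq_zero_or_pos n with rfl | hn
    · simp at h1; omega
    · obtain ⟨F, a1, a2, -⟩ := h3 ⟨0, hn⟩
      exact ⟨F, a1, a2⟩
  · rintro ⟨h1, ⟨F, hF, hFc⟩, h3⟩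
    have hsum : ∑ j, a j = D + i := by
      obtain ⟨S, a1, a2⟩ := kos_tight hr hF Fᶜ fun e he => by
        rw [Finset.mem_compl] at he
        refine ⟨he, fun h => ?_⟩
        have := h1 _ h
        rw [Finset.card_insert_of_notMem he] at this
        omega
      rcases (Sᶜ).eq_empty_or_nonempty with h | ⟨j, hj⟩
      · have hS : S = Finset.univ := by simpa using h
        subst hS
        rw [h, hr.empty, Finset.univ_inter] at a2
        omega
      · exfalso
        obtain ⟨G, b1, b2, b3⟩ := h3 j
        have h4 := b1 S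
        have h5 := Finset.card_sdiff_add_card_inter F S
        have h6 := Finset.card_sdiff_add_card_inter G S
        rw [Finset.inter_comm] at h5 h6
        have h7 : (insert j (G \ S)).card ≤ (F \ S).card := Finset.card_le_card fun x hx => by
          have hxS : x ∉ S := by
            rcases Finset.mem_insert.mp hx with h' | h'
            · exact h' ▸ Finset.mem_compl.mp hj
            · exact (Finset.mem_sdiff.mp h').2
          refine Finset.mem_sdiff.mpr ⟨?_, hxS⟩
          by_contra h'
          exact hxS (a1 (Finset.mem_compl.mpr h'))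
        rw [Finset.card_insert_of_notMem (fun h => b3 (Finset.mem_sdiff.mp h).1)] at h7
        omega
    refine ⟨hsum, fun S ⟨j, hj⟩ => ?_⟩
    obtain ⟨G, b1, b2, b3⟩ := h3 j
    have h4 := b1 Sᶜ
    rw [compl_compl] at h4
    have h5 := Finset.sum_add_sum_compl S a
    have h6 := Finset.card_sdiff_add_card_inter G S
    have h7 : Sᶜ ∩ G = G \ S := by ext x; simp [and_comm]
    have h8 : (insert j (G ∩ S)).card ≤ S.card := Finset.card_le_card
      (Finset.insert_subset hj Finset.inter_subset_right)
    rw [Finset.card_insert_of_notMem (fun h => b3 (Finset.mem_inter.mp h).1)] at h8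
    rw [h7] at h4
    omega

theorem base_split {r : Finset (Fin n) → ℤ} {D : ℤ} (hr : IsRank r D) (k : ℕ) {x : Fin n → ℤ}
    (hx : Base (fun S => (k + 1 : ℕ) * r S) ((k + 1 : ℕ) * D) x) :
    ∃ b, Base r D b ∧ Base (fun S => k * r S) (k * D) (x - b) := by
  obtain ⟨h1, h2⟩ := hx
  push_cast at h1 h2
  obtain ⟨c, y, hy⟩ := sandwich Finset.univ r (fun S => ∑ j ∈ S, x j - k * r S)
    (fun A _ B _ => hr.sub A B) (fun A _ B _ => by
      have := (hr.smul k).sub A B
      have := Finset.sum_union_inter (s₁ := A) (s₂ := B) (f := x)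
      omega) (fun A _ => by
      have := h2 A
      linarith)
  have hc : c = 0 := by
    have := hy ∅ (Finset.subset_univ _)
    simp only [Finset.sum_empty, hr.empty] at this
    omega
  subst hc
  have hu := hy Finset.univ (Finset.subset_univ _)
  rw [hr.univ] at hu
  refine ⟨y, ⟨by linarith [hu.1, hu.2], fun S => by
    have := hy S (Finset.subset_univ _); omega⟩, ?_, fun S => ?_⟩
  · simp only [Pi.sub_apply, Finset.sum_sub_distrib]
    linarith [hu.1, hu.2]
  · simp only [Pi.sub_apply, Finset.sum_sub_distrib]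
    have := hy S (Finset.subset_univ _); omega

theorem hset_add {r : Finset (Fin n) → ℤ} {D : ℤ} (k i : ℕ) {a b : Fin n → ℤ}
    (hb : Base r D b) (ha : HSet (fun S => k * r S) (k * D) i a) :
    HSet (fun S => (k + 1 : ℕ) * r S) ((k + 1 : ℕ) * D) i (b + a) := by
  refine ⟨?_, fun S hS => ?_⟩
  · simp only [Pi.add_apply, Finset.sum_add_distrib, hb.1, ha.1]
    push_cast; ring
  · have h1 := hb.2 S
    have h2 := ha.2 S hS
    beta_reduce at h2
    simp only [Pi.add_apply, Finset.sum_add_distrib]
    push_cast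
    have : ((k : ℤ) + 1) * r S = k * r S + r S := by ring
    omega

/-- The main combinatorial step. -/
theorem hset_split {r : Finset (Fin n) → ℤ} {D : ℤ} (hr : IsRank r D) {k i : ℕ} (hi : 0 < i)
    (hk : i ≤ k) (hD : 0 ≤ D) {a : Fin n → ℤ}
    (ha : HSet (fun S => (k + 1 : ℕ) * r S) ((k + 1 : ℕ) * D) i a) :
    ∃ b, Base r D b ∧ HSet (fun S => k * r S) (k * D) i (a - b) := by
  obtain ⟨h1, h2⟩ := ha
  have h2' : ∀ S : Finset (Fin n), S.Nonempty →
      ∑ j ∈ S, a j ≤ k * r S + r S + min (i : ℤ) ((S.card : ℤ) - 1) := fun S hS => by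
    have h := h2 S hS
    push_cast at h
    have : ((k : ℤ) + 1) * r S = k * r S + r S := by ring
    omega
  have h1' : ∑ j, a j = k * D + D + i := by rw [h1]; push_cast; ring
  set g : Finset (Fin n) → ℤ := fun S => k * r S + min (i : ℤ) ((S.card : ℤ) - 1) with hg
  obtain ⟨G, G1, G2, G3⟩ := dilworth (g := g) (by
    intro A B hAB
    have a1 := (hr.smul k).sub A B
    have a2 := Finset.card_union_add_card_inter A B
    have a3 : (A ∩ B).card ≤ A.card := Finset.card_le_card Finset.inter_subset_left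
    have a4 : (A ∩ B).card ≤ B.card := Finset.card_le_card Finset.inter_subset_right
    simp only [hg]
    omega)
  have hval : ∀ S v, Val g S v → ∃ t : ℤ, r S ≤ t ∧ k * t ≤ v ∧ ∑ j ∈ S, a j ≤ v + t := by
    intro S v h
    induction h with
    | nil => exact ⟨0, by simp [hr.empty]⟩
    | @cons S T v _ hT hd ih =>
      obtain ⟨t, t1, t2, t3⟩ := ih
      have a1 := hr.sub S T
      rw [Finset.disjoint_iff_inter_eq_empty.mp hd, hr.empty] at a1
      have a2 := h2' T hT
      have a3 := hT.card_pos
      refine ⟨t + r T, by omega, ?_, ?_⟩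
      · simp only [hg, mul_add]; omega
      · rw [Finset.sum_union hd]; simp only [hg]; omega
  have hG0 : G ∅ = 0 := (G1 ∅).empty rfl
  obtain ⟨c, y, hy⟩ := sandwich Finset.univ r (fun S => ∑ j ∈ S, a j - G S)
    (fun A _ B _ => hr.sub A B) (fun A _ B _ => by
      have := G3 A B
      have := Finset.sum_union_inter (s₁ := A) (s₂ := B) (f := a)
      omega) (fun A _ => by
      obtain ⟨t, t1, t2, t3⟩ := hval A _ (G1 A)
      rcases t1.eq_or_lt with h | h
      · omega
      · rcases A.eq_empty_or_nonempty with rfl | hA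
        · simp [hG0, hr.empty]
        · have a1 := h2' A hA
          have a2 : (k : ℤ) * (r A + 1) ≤ k * t :=
            mul_le_mul_of_nonneg_left (by omega) (Int.natCast_nonneg k)
          rw [mul_add, mul_one] at a2
          omega)
  have hc : c = 0 := by
    have := hy ∅ (Finset.subset_univ _)
    simp only [Finset.sum_empty, hr.empty, hG0] at this
    omega
  subst hc
  have hne : (Finset.univ : Finset (Fin n)).Nonempty := by
    rcases (Finset.univ : Finset (Fin n)).eq_empty_or_nonempty with h | h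
    · rw [h, Finset.sum_empty] at h1'
      have := mul_nonneg (Int.natCast_nonneg k) hD
      omega
    · exact h
  have hu := hy Finset.univ (Finset.subset_univ _)
  have hGu := G2 _ _ (Val.single g hne)
  simp only [hg, hr.univ] at hu hGu
  refine ⟨y, ⟨by omega, fun S => by
    have := hy S (Finset.subset_univ _); omega⟩, ?_, fun S hS => ?_⟩
  · simp only [Pi.sub_apply, Finset.sum_sub_distrib]
    omega
  · simp only [Pi.sub_apply, Finset.sum_sub_distrib]
    have := hy S (Finset.subset_univ _)
    have a1 := G2 _ _ (Val.single g hS)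
    simp only [hg] at a1
    omega

theorem HSet.nonneg {r : Finset (Fin n) → ℤ} {D : ℤ} (hr : IsRank r D) (hD : 0 ≤ D) {i : ℕ}
    {a : Fin n → ℤ} (ha : HSet r D i a) (j : Fin n) : 0 ≤ a j := by
  have h1 := Finset.sum_add_sum_compl {j} a
  rw [Finset.sum_singleton, ha.1] at h1
  rcases (({j} : Finset (Fin n))ᶜ).eq_empty_or_nonempty with h | h
  · rw [h, Finset.sum_empty] at h1; omega
  · have := ha.2 _ h
    have := hr.le {j}ᶜ
    omega

end Pool.Agent.Lib.MP_8dad47_al
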