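import Pool.Agent.Lib.MP_8dad47_al.Defs
import Pool.Agent.Lib.MP_8dad47_al.Exchange
import Pool.Agent.Lib.MP_8dad47_al.Poly

/-! From ideals and Koszul homology to rank functions. -/

namespace Pool.Agent.Lib.MP_8dad47_al

open MvPolynomial

variable {K : Type*} [Field K] {n : ℕ}

/-- exponent vector of the squarefree monomial `x_F` -/
noncomputable def ind (F : Finset (Fin n)) : Fin n →₀ ℕ := ∑ j ∈ F, Finsupp.single j 1

theorem ind_apply (F : Finset (Fin n)) (j : Fin n) : ind F j = if j ∈ F then 1 else 0 := by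
  simp [ind, Finsupp.finsetSum_apply, Finsupp.single_apply]

/-- the upper Koszul simplicial complex -/
def UK (J : Ideal (MvPolynomial (Fin n) K)) (a : Fin n →₀ ℕ) (F : Finset (Fin n)) : Prop :=
  ind F ≤ a ∧ monomial (a - ind F) (1 : K) ∈ J

/-- the chain with given coefficients -/
noncomputable def toChain (a : Fin n →₀ ℕ) (c : Finset (Fin n) → K) :
    Finset (Fin n) → MvPolynomial (Fin n) K := fun F => monomial (a - ind F) (c F)

theorem toChain_inj {a : Fin n →₀ ℕ} {c c' : Finset (Fin n) → K}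
    (h : toChain a c = toChain a c') : c = c' := by
  funext F
  have := congrArg (coeff (a - ind F)) (congrFun h F)
  simpa [toChain] using this

theorem toChain_zero (a : Fin n →₀ ℕ) : toChain a (0 : Finset (Fin n) → K) = 0 := by
  funext F; simp [toChain]

theorem mem_piece_iff (J : Ideal (MvPolynomial (Fin n) K)) (i : ℕ) (a : Fin n →₀ ℕ)
    (z : Finset (Fin n) → MvPolynomial (Fin n) K) :
    z ∈ koszulPiece J i a ↔ ∃ c, Supp (UK J a) i c ∧ z = toChain a c := by
  constructor
  · intro hz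
    have h1 : ∀ F, z F = monomial (a - ind F) (coeff (a - ind F) (z F)) := by
      intro F
      apply eq_monomial_of_support_subset_singleton
      intro m hm
      have := ((hz F).2 m hm).2
      rw [← this]
      exact (add_tsub_cancel_right m (ind F)).symm
    refine ⟨fun F => coeff (a - ind F) (z F), fun F hF => ?_, funext h1⟩
    obtain ⟨h2, h3⟩ := (hz F).2 _ (mem_support_iff.mpr hF)
    refine ⟨⟨?_, ?_⟩, h2⟩
    · rw [← h3]; exact le_add_self
    · have h4 := J.mul_mem_left (C (coeff (a - ind F) (z F))⁻¹) (hz F).1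
      rw [h1 F, C_mul_monomial] at h4
      simp only [coeff_monomial, if_true] at h4
      rwa [inv_mul_cancel₀ hF] at h4
  · rintro ⟨c, hc, rfl⟩ F
    by_cases h : c F = 0
    · simp [toChain, h]
    · obtain ⟨⟨h1, h2⟩, h3⟩ := hc F h
      refine ⟨?_, fun m hm => ⟨h3, ?_⟩⟩
      · have h4 := J.mul_mem_left (C (c F)) h2
        rwa [C_mul_monomial, mul_one] at h4
      · have := support_monomial_subset hm
        rw [Finset.mem_singleton] at this
        rw [this]
        exact tsub_add_cancel_of_le h1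

theorem koszulD_toChain {a : Fin n →₀ ℕ} {c : Finset (Fin n) → K}
    (hc : ∀ F, c F ≠ 0 → ind F ≤ a) : koszulD (toChain a c) = toChain a (bd c) := by
  funext G
  simp only [koszulD, toChain, bd, map_sum]
  refine Finset.sum_congr rfl fun j hj => ?_
  have hj' : j ∉ G := Finset.mem_compl.mp hj
  by_cases h : c (insert j G) = 0
  · simp [h]
  · have h1 := hc _ h
    have h2 : Finsupp.single j 1 + (a - ind (insert j G)) = a - ind G := by
      ext l
      have h3 := h1 l
      simp only [Finsupp.add_apply, Finsupp.tsub_apply, ind_apply, Finsupp.single_apply,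
        Finset.mem_insert] at h3 ⊢
      by_cases hl : j = l
      · subst hl
        simp only [true_or, if_true, hj', if_false] at h3 ⊢
        omega
      · have hl' : ¬ l = j := fun h => hl h.symm
        simp [hl, hl']
    have h3 : ((-1 : MvPolynomial (Fin n) K)) ^ (G.filter (· < j)).card = C (sgn K j G) := by
      simp [sgn]
    rw [h3, mul_assoc, X, monomial_mul, h2, C_mul_monomial, one_mul]

theorem torNeZero_iff (J : Ideal (MvPolynomial (Fin n) K)) (i : ℕ) (a : Fin n →₀ ℕ) :
    TorNeZero J i a ↔ ¬ Exact K (UK J a) i := by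
  constructor
  · rintro ⟨z, hz, h0, hnb⟩ hex
    obtain ⟨c, hc, rfl⟩ := (mem_piece_iff J i a z).mp hz
    rw [koszulD_toChain fun F hF => (hc F hF).1.1, ← toChain_zero a] at h0
    obtain ⟨w, hw, hw'⟩ := hex c hc (toChain_inj h0)
    refine hnb (toChain a w) ((mem_piece_iff J _ a _).mpr ⟨w, hw, rfl⟩) ?_
    rw [koszulD_toChain fun F hF => (hw F hF).1.1, hw']
  · intro h
    unfold Exact at h
    push Not at h
    obtain ⟨c, hc, h0, hnb⟩ := h
    refine ⟨toChain a c, (mem_piece_iff J _ a _).mpr ⟨c, hc, rfl⟩, ?_, fun z hz hz' => ?_⟩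
    · rw [koszulD_toChain fun F hF => (hc F hF).1.1, h0, toChain_zero]
    · obtain ⟨w, hw, rfl⟩ := (mem_piece_iff J _ a z).mp hz
      rw [koszulD_toChain fun F hF => (hw F hF).1.1] at hz'
      exact hnb w hw (toChain_inj hz')

/-- integer vector of an exponent vector -/
def cz (a : Fin n →₀ ℕ) : Fin n → ℤ := fun j => (a j : ℤ)

theorem cz_add (a b : Fin n →₀ ℕ) : cz (a + b) = cz a + cz b := by
  funext j; simp [cz]

theorem exists_cz {x : Fin n → ℤ} (hx : ∀ j, 0 ≤ x j) : ∃ a, cz a = x :=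
  ⟨Finsupp.equivFunOnFinite.symm fun j => (x j).toNat, by
    funext j; simp [cz, hx j]⟩

theorem span_image_mul (A B : Set (Fin n →₀ ℕ)) :
    Ideal.span ((fun a => monomial a (1 : K)) '' A) *
      Ideal.span ((fun a => monomial a (1 : K)) '' B) =
    Ideal.span ((fun a => monomial a (1 : K)) '' {c | ∃ a ∈ A, ∃ b ∈ B, a + b = c}) := by
  rw [Ideal.span_mul_span]
  congr 1
  ext f
  simp only [Set.mem_mul, Set.mem_image, Set.mem_ofPred_eq]
  constructor
  · rintro ⟨_, ⟨a, ha, rfl⟩, _, ⟨b, hb, rfl⟩, rfl⟩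
    exact ⟨a + b, ⟨a, ha, b, hb, rfl⟩, by rw [monomial_mul, one_mul]⟩
  · rintro ⟨_, ⟨a, ha, b, hb, rfl⟩, rfl⟩
    exact ⟨_, ⟨a, ha, rfl⟩, _, ⟨b, hb, rfl⟩, by rw [monomial_mul, one_mul]⟩

theorem monomial_mem_span_iff (A : Set (Fin n →₀ ℕ)) (m : Fin n →₀ ℕ) :
    monomial m (1 : K) ∈ Ideal.span ((fun a => monomial a (1 : K)) '' A) ↔ ∃ a ∈ A, a ≤ m := by
  classical
  rw [mem_ideal_span_monomial_image, support_monomial, if_neg one_ne_zero]
  simp

theorem eq_span_minGens {I : Ideal (MvPolynomial (Fin n) K)} (hI : IsMonomialIdeal I) :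
    I = Ideal.span ((fun a => monomial a (1 : K)) '' minGens I) := by
  apply le_antisymm
  · obtain ⟨A, hA⟩ := hI
    conv_lhs => rw [hA]
    rw [Ideal.span_le]
    rintro _ ⟨a, ha, rfl⟩
    have h1 : monomial a (1 : K) ∈ I := hA ▸ Ideal.subset_span ⟨a, ha, rfl⟩
    obtain ⟨b, hb, hb'⟩ := exists_minimal_le_of_wellFoundedLT
      (fun b => monomial b (1 : K) ∈ I) a h1
    exact (monomial_mem_span_iff _ _).mpr ⟨b, hb', hb⟩
  · rw [Ideal.span_le]
    rintro _ ⟨a, ha, rfl⟩
    exact ha.1

theorem base_add {r : Finset (Fin n) → ℤ} {D : ℤ} (k : ℕ) {a b : Fin n → ℤ}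
    (hb : Base r D b) (ha : Base (fun S => k * r S) (k * D) a) :
    Base (fun S => (k + 1 : ℕ) * r S) ((k + 1 : ℕ) * D) (b + a) := by
  refine ⟨?_, fun S => ?_⟩
  · simp only [Pi.add_apply, Finset.sum_add_distrib, hb.1, ha.1]
    push_cast; ring
  · have h1 := hb.2 S
    have h2 := ha.2 S
    beta_reduce at h2
    simp only [Pi.add_apply, Finset.sum_add_distrib]
    push_cast
    linarith

theorem pow_eq_span {r : Finset (Fin n) → ℤ} {D : ℤ} (hr : IsRank r D) (k : ℕ) :
    Ideal.span ((fun a => monomial a (1 : K)) '' {a | Base r D (cz a)}) ^ k =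
      Ideal.span ((fun a => monomial a (1 : K)) ''
        {a | Base (fun S => k * r S) (k * D) (cz a)}) := by
  induction k with
  | zero =>
    rw [pow_zero, Ideal.one_eq_top, eq_comm, Ideal.eq_top_iff_one]
    refine Ideal.subset_span ⟨0, ?_, rfl⟩
    simp [Base, cz]
  | succ k ih =>
    rw [pow_succ', ih, span_image_mul]
    congr 2
    ext c
    simp only [Set.mem_ofPred_eq]
    constructor
    · rintro ⟨a, ha, b, hb, rfl⟩
      rw [cz_add]
      exact base_add k ha hb
    · intro hc
      obtain ⟨b, hb, hb'⟩ := base_split hr k hc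
      obtain ⟨b', rfl⟩ := exists_cz (hb.up.nonneg hr)
      obtain ⟨a', ha'⟩ := exists_cz (hb'.up.nonneg (hr.smul k))
      refine ⟨b', hb, a', ha' ▸ hb', ?_⟩
      ext j
      have := congrFun ha' j
      simp only [cz, Pi.sub_apply] at this
      rw [Finsupp.add_apply]
      omega

theorem uk_iff {r : Finset (Fin n) → ℤ} {D : ℤ} (hr : IsRank r D) (a : Fin n →₀ ℕ)
    (F : Finset (Fin n)) :
    UK (Ideal.span ((fun a => monomial a (1 : K)) '' {a | Base r D (cz a)})) a F ↔
      Kos r D (cz a) F := by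
  rw [kos_iff, UK, monomial_mem_span_iff, up_iff hr]
  constructor
  · rintro ⟨h1, b, hb, hb'⟩
    refine ⟨cz b, hb, fun j => ?_⟩
    have h2 := h1 j
    have h3 := hb' j
    simp only [Finsupp.tsub_apply, ind_apply, cz] at h2 h3 ⊢
    split_ifs at h2 h3 ⊢ <;> omega
  · rintro ⟨b, hb, hb'⟩
    obtain ⟨b', rfl⟩ := exists_cz (hb.up.nonneg hr)
    refine ⟨fun j => ?_, b', hb, fun j => ?_⟩
    · have h3 := hb' j
      simp only [ind_apply, cz] at h3 ⊢
      split_ifs at h3 ⊢ <;> omega
    · have h3 := hb' j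
      simp only [Finsupp.tsub_apply, ind_apply, cz] at h3 ⊢
      split_ifs at h3 ⊢ <;> omega

theorem torNeZero_span_iff {r : Finset (Fin n) → ℤ} {D : ℤ} (hr : IsRank r D) (hD : 0 ≤ D)
    {i : ℕ} (hi : 0 < i) (a : Fin n →₀ ℕ) :
    TorNeZero (Ideal.span ((fun a => monomial a (1 : K)) '' {a | Base r D (cz a)})) i a ↔
      HSet r D i (cz a) := by
  have h : UK (Ideal.span ((fun a => monomial a (1 : K)) '' {a | Base r D (cz a)})) a =
      Kos r D (cz a) := funext fun F => propext (uk_iff hr a F)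
  rw [torNeZero_iff, h, not_exact_iff (kos_isMat hr _), hset_iff hr hD hi]

theorem exists_rank_of_polymatroidal {I : Ideal (MvPolynomial (Fin n) K)}
    (hI : IsPolymatroidal I) (hne : (minGens I).Nonempty) :
    ∃ (r : Finset (Fin n) → ℤ) (D : ℤ), IsRank r D ∧ 0 ≤ D ∧
      minGens I = {a | Base r D (cz a)} := by
  obtain ⟨-, ⟨d, hd⟩, hex⟩ := hI
  have hinj : Function.Injective (cz (n := n)) := fun a b h => by
    ext j
    have := congrFun h j
    simpa [cz] using this
  obtain ⟨ρ, h1, h2, h3, h4, h5⟩ := exists_rank (B := cz '' minGens I) (d := d)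
    (hne.image _) (by
      rintro _ ⟨b, hb, rfl⟩
      rw [← hd b hb]; simp [cz]) (by
      rintro _ ⟨b, -, rfl⟩ j
      simp [cz]) (by
      rintro _ ⟨u, hu, rfl⟩ _ ⟨v, hv, rfl⟩ p hp
      have hp' : v p < u p := by simpa [cz] using hp
      obtain ⟨q, hq, hq'⟩ := hex u hu v hv p hp'
      refine ⟨q, by simpa [cz] using hq, _, hq', ?_⟩
      funext j
      simp only [cz, mv_apply, Finsupp.tsub_apply, Finsupp.add_apply, Finsupp.single_apply]
      by_cases hj : j = p
      · subst hj
        have : ¬ q = j := by rintro rfl; omega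
        have h' : ¬ j = q := fun h => this h.symm
        simp only [this, h', if_true, if_false]
        omega
      · have h' : ¬ p = j := fun h => hj h.symm
        simp only [hj, h', if_false, eq_comm (a := j)]
        split_ifs <;> simp)
  refine ⟨ρ, d, ⟨h1, h2, h3, h4⟩, Int.natCast_nonneg d, ?_⟩
  ext a
  rw [Set.mem_ofPred_eq, Base, ← h5, hinj.mem_set_image]

theorem hs_bot (i : ℕ) : HS (⊥ : Ideal (MvPolynomial (Fin n) K)) i = ⊥ := by
  have : {a | TorNeZero (⊥ : Ideal (MvPolynomial (Fin n) K)) i a} = ∅ := by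
    ext a
    simp only [Set.mem_ofPred_eq, Set.mem_empty_iff_false, iff_false, torNeZero_iff, not_not]
    exact exact_of_void fun F hF => by simp [UK] at hF
  rw [HS, this]; simp

theorem hs_pow_succ {I : Ideal (MvPolynomial (Fin n) K)} (hI : IsPolymatroidal I) {i k : ℕ}
    (hi : 0 < i) (hk : i ≤ k) : HS (I ^ (k + 1)) i = I * HS (I ^ k) i := by
  have hspan := eq_span_minGens hI.1
  rcases (minGens I).eq_empty_or_nonempty with h | h
  · rw [h] at hspan
    simp only [Set.image_empty, Ideal.span_empty] at hspan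
    subst hspan
    rw [pow_succ', Ideal.bot_mul, Ideal.bot_mul, hs_bot]
  obtain ⟨r, D, hr, hD, hG⟩ := exists_rank_of_polymatroidal hI h
  rw [hG] at hspan
  rw [hspan, pow_eq_span hr, pow_eq_span hr, HS, HS, span_image_mul]
  congr 2
  ext c
  simp only [Set.mem_ofPred_eq,
    torNeZero_span_iff (hr.smul _) (mul_nonneg (Int.natCast_nonneg _) hD) hi]
  constructor
  · intro hc
    obtain ⟨b, hb, hb'⟩ := hset_split hr hi hk hD hc
    obtain ⟨b', rfl⟩ := exists_cz (hb.up.nonneg hr)
    obtain ⟨a', ha'⟩ := exists_cz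
      (hb'.nonneg (hr.smul k) (mul_nonneg (Int.natCast_nonneg _) hD))
    refine ⟨b', hb, a', ha' ▸ hb', ?_⟩
    ext j
    have := congrFun ha' j
    simp only [cz, Pi.sub_apply] at this
    rw [Finsupp.add_apply]
    omega
  · rintro ⟨a, ha, b, hb, rfl⟩
    rw [cz_add]
    exact hset_add k i ha hb

end Pool.Agent.Lib.MP_8dad47_al
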