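import Mathlib

/-! Definitions for MP_8dad47_al: polymatroidal ideals and homological shift ideals in
`S = K[x_1, ..., x_n]`. -/

namespace Pool.Agent.Lib.MP_8dad47_al

open MvPolynomial

variable {K : Type*} [Field K] {n : ℕ}

/-- `I` is generated by monomials. -/
def IsMonomialIdeal (I : Ideal (MvPolynomial (Fin n) K)) : Prop :=
  ∃ A : Set (Fin n →₀ ℕ), I = Ideal.span ((fun a => monomial a (1 : K)) '' A)

/-- The exponent vectors of `G(I)`: the monomials of `I` that are minimal under divisibility. -/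
def minGens (I : Ideal (MvPolynomial (Fin n) K)) : Set (Fin n →₀ ℕ) :=
  {a | Minimal (fun b => monomial b (1 : K) ∈ I) a}

/-- `I` is a monomial ideal generated in one degree with the exchange property: for
`u, v ∈ G(I)` with `deg_p u > deg_p v` there is `q` with `deg_q u < deg_q v` and
`x_q u / x_p ∈ G(I)`. -/
def IsPolymatroidal (I : Ideal (MvPolynomial (Fin n) K)) : Prop :=
  IsMonomialIdeal I ∧ (∃ d : ℕ, ∀ u ∈ minGens I, ∑ j, u j = d) ∧
    ∀ u ∈ minGens I, ∀ v ∈ minGens I, ∀ p, v p < u p →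
      ∃ q, u q < v q ∧ u + Finsupp.single q 1 - Finsupp.single p 1 ∈ minGens I

/-- The differential of the Koszul complex of `x_1, ..., x_n`. A function `z` stands for the chain
`∑_F z F ⊗ e_F` (`F ⊆ {1, ..., n}`), and `∂ e_F = ∑_{j ∈ F} (-1)^{#{l ∈ F | l < j}} x_j e_{F - j}`;
the value at `G` is the coefficient of `e_G` in `∂ z`. -/
noncomputable def koszulD (z : Finset (Fin n) → MvPolynomial (Fin n) K) :
    Finset (Fin n) → MvPolynomial (Fin n) K :=
  fun G => ∑ j ∈ Gᶜ, (-1) ^ (G.filter (· < j)).card * X j * z (insert j G)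

/-- The multidegree `a` part of the `i`-th term `⊕_{|F| = i} I ⊗ e_F` of the Koszul complex
`K(x_1, ..., x_n) ⊗ I`, where `e_F` has multidegree `∑_{j ∈ F} e_j`: all coefficients lie in `I`,
and a monomial `x^m` can occur in the coefficient of `e_F` only if `|F| = i` and
`m + ∑_{j ∈ F} e_j = a`. -/
def koszulPiece (I : Ideal (MvPolynomial (Fin n) K)) (i : ℕ) (a : Fin n →₀ ℕ) :
    Set (Finset (Fin n) → MvPolynomial (Fin n) K) :=
  {z | ∀ F, z F ∈ I ∧
    ∀ m ∈ (z F).support, F.card = i ∧ m + ∑ j ∈ F, Finsupp.single j 1 = a}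

/-- `Tor_i^S(K, I)_a ≠ 0`, with `Tor` computed from the Koszul resolution of `K` (the minimal
multigraded free resolution of `K = S / (x_1, ..., x_n)`): some cycle of homological degree `i` and
multidegree `a` in `K(x_1, ..., x_n) ⊗ I` is not a boundary. -/
def TorNeZero (I : Ideal (MvPolynomial (Fin n) K)) (i : ℕ) (a : Fin n →₀ ℕ) : Prop :=
  ∃ z ∈ koszulPiece I i a, koszulD z = 0 ∧ ∀ w ∈ koszulPiece I (i + 1) a, koszulD w ≠ z

/-- The `i`-th homological shift ideal `HS_i(I) = (x^a : Tor_i^S(K, I)_a ≠ 0)`. -/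
noncomputable def HS (I : Ideal (MvPolynomial (Fin n) K)) (i : ℕ) :
    Ideal (MvPolynomial (Fin n) K) :=
  Ideal.span ((fun a => monomial a (1 : K)) '' {a | TorNeZero I i a})

end Pool.Agent.Lib.MP_8dad47_al
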