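import Pool.Agent.Lib.MP_8dad47_al.Bridge

/-! Sanity checks of the definitions: the Koszul complex is a complex, it resolves `K`, and
`HS_0(I) = I`. -/

namespace Pool.Agent.Lib.MP_8dad47_al

open MvPolynomial

variable {K : Type*} [Field K] {n : ℕ}

theorem koszulD_koszulD (z : Finset (Fin n) → MvPolynomial (Fin n) K) :
    koszulD (koszulD z) = 0 := by
  funext G
  have hs : ∀ (j : Fin n) (H : Finset (Fin n)),
      ((-1 : MvPolynomial (Fin n) K)) ^ (H.filter (· < j)).card = C (sgn K j H) := by
    intro j H; simp [sgn]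
  simp only [koszulD, hs, Finset.mul_sum, Pi.zero_apply]
  set t : Fin n → Fin n → MvPolynomial (Fin n) K := fun j l =>
    C (sgn K j G) * X j * (C (sgn K l (insert j G)) * X l * z (insert l (insert j G))) with ht
  have h1 : ∀ j ∈ Gᶜ, ∑ l ∈ (insert j G)ᶜ, t j l = ∑ l ∈ Gᶜ, if l = j then 0 else t j l := by
    intro j _
    rw [Finset.compl_insert, Finset.sum_ite, Finset.sum_const_zero, zero_add, Finset.filter_ne']
  change ∑ j ∈ Gᶜ, ∑ l ∈ (insert j G)ᶜ, t j l = 0
  rw [Finset.sum_congr rfl h1, ← Finset.sum_product']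
  refine Finset.sum_involution (fun p _ => p.swap) ?_ ?_ ?_ ?_
  · rintro ⟨j, l⟩ hp
    simp only [Finset.mem_product, Finset.mem_compl] at hp
    by_cases h : l = j
    · simp [h]
    · have h' : ¬ j = l := fun h' => h h'.symm
      simp only [Prod.swap, h, h', if_false, ht]
      have h2 := congrArg (C (σ := Fin n)) (sgn_swap (K := K) hp.2 hp.1 h)
      rw [map_neg, map_mul, map_mul] at h2
      rw [Finset.insert_comm j l G]
      linear_combination (X j * X l * z (insert l (insert j G))) * h2
  · rintro ⟨j, l⟩ _ hne heq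
    simp only [Prod.swap, Prod.mk.injEq] at heq
    exact hne (by simp [heq.1])
  · rintro ⟨j, l⟩ hp
    simp only [Finset.mem_product] at hp ⊢
    exact ⟨hp.2, hp.1⟩
  · rintro ⟨j, l⟩ _
    rfl

theorem torNeZero_top (i : ℕ) (a : Fin n →₀ ℕ) :
    TorNeZero (⊤ : Ideal (MvPolynomial (Fin n) K)) i a ↔ i = 0 ∧ a = 0 := by
  rw [torNeZero_iff]
  constructor
  · intro h
    have ha : a = 0 := by
      by_contra ha
      obtain ⟨e, he⟩ := Finsupp.support_nonempty_iff.mpr ha
      refine h (exact_of_cone (e := e) (fun F hF => ⟨fun j => ?_, Submodule.mem_top⟩) i)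
      have h1 := hF.1 j
      have h2 := Finsupp.mem_support_iff.mp he
      simp only [ind_apply, Finset.mem_insert] at h1 ⊢
      by_cases hj : j = e
      · subst hj; simp only [true_or, if_true]; omega
      · simpa [hj] using h1
    refine ⟨?_, ha⟩
    by_contra hi
    refine h (exact_of_void fun F hF hc => ?_)
    obtain ⟨j, hj⟩ : F.Nonempty := Finset.card_pos.mp (by omega)
    have h1 := hF.1 j
    simp [ind_apply, hj, ha] at h1
  · rintro ⟨rfl, rfl⟩ hex
    obtain ⟨w, hw, hw'⟩ := hex (fun G => if G = ∅ then 1 else 0) (fun G hG => by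
      have : G = ∅ := by
        by_contra h
        simp [h] at hG
      subst this
      exact ⟨⟨by simp [ind], Submodule.mem_top⟩, rfl⟩) (by
      funext G
      simp [bd])
    have hw0 : w = 0 := by
      funext F
      by_contra hF
      obtain ⟨⟨h1, -⟩, h2⟩ := hw F hF
      obtain ⟨j, hj⟩ : F.Nonempty := Finset.card_pos.mp (by omega)
      have h3 := h1 j
      simp [ind_apply, hj] at h3
    rw [hw0, bd_zero] at hw'
    have := congrFun hw' ∅
    simp at this

theorem torNeZero_zero_iff (I : Ideal (MvPolynomial (Fin n) K)) (a : Fin n →₀ ℕ) :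
    TorNeZero I 0 a ↔ a ∈ minGens I := by
  have hup : ∀ b c : Fin n →₀ ℕ, b ≤ c → monomial b (1 : K) ∈ I → monomial c (1 : K) ∈ I := by
    intro b c hbc hb
    have := I.mul_mem_left (monomial (c - b) 1) hb
    rwa [monomial_mul, one_mul, tsub_add_cancel_of_le hbc] at this
  rw [torNeZero_iff]
  constructor
  · intro h
    have h0 : monomial a (1 : K) ∈ I := by
      by_contra h0
      refine h (exact_of_void fun F hF hc => h0 ?_)
      rw [Finset.card_eq_zero] at hc
      subst hc
      simpa [ind] using hF.2
    refine ⟨h0, fun b hb hba => ?_⟩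
    by_contra hab
    rw [Finsupp.le_def] at hab
    push Not at hab
    obtain ⟨e, he⟩ := hab
    have hv : UK I a {e} := by
      refine ⟨fun j => ?_, hup b _ (fun j => ?_) hb⟩
      · simp only [ind_apply, Finset.mem_singleton]
        split_ifs with hj
        · subst hj; omega
        · omega
      · have := hba j
        simp only [Finsupp.tsub_apply, ind_apply, Finset.mem_singleton]
        split_ifs with hj
        · subst hj; omega
        · omega
    refine h fun c hc h0 => ⟨wdg e c, Supp.wdg fun F hF => ⟨?_, (hc F hF).2⟩, by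
      rw [bd_wdg, h0, wdg_zero, sub_zero]⟩
    rw [Finset.card_eq_zero.mp (hc F hF).2]
    simpa using hv
  · intro ha hex
    obtain ⟨w, hw, hw'⟩ := hex (fun G => if G = ∅ then 1 else 0) (fun G hG => by
      have : G = ∅ := by
        by_contra h
        simp [h] at hG
      subst this
      exact ⟨⟨by simp [ind], by simpa [ind] using ha.1⟩, rfl⟩) (by
      funext G
      simp [bd])
    have hw0 : w = 0 := by
      funext F
      by_contra hF
      obtain ⟨⟨h1, h1'⟩, h2⟩ := hw F hF
      obtain ⟨j, hj⟩ : F.Nonempty := Finset.card_pos.mp (by omega)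
      have h3 := h1 j
      have h4 := ha.2 h1' tsub_le_self j
      simp only [Finsupp.tsub_apply, ind_apply, hj, if_true] at h3 h4
      omega
    rw [hw0, bd_zero] at hw'
    have := congrFun hw' ∅
    simp at this

theorem hs_zero {I : Ideal (MvPolynomial (Fin n) K)} (hI : IsMonomialIdeal I) : HS I 0 = I := by
  have : {a | TorNeZero I 0 a} = minGens I := Set.ext fun a => torNeZero_zero_iff I a
  rw [HS, this, ← eq_span_minGens hI]

end Pool.Agent.Lib.MP_8dad47_al
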