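import Mathlib

/-! Submodular functions: discrete sandwich theorem and Dilworth truncation. -/

namespace Pool.Agent.Lib.MP_8dad47_al

open Finset

variable {α : Type*} [DecidableEq α]

/-- Frank's discrete sandwich theorem. -/
theorem sandwich (E : Finset α) : ∀ (f p : Finset α → ℤ),
    (∀ A ⊆ E, ∀ B ⊆ E, f (A ∪ B) + f (A ∩ B) ≤ f A + f B) →
    (∀ A ⊆ E, ∀ B ⊆ E, p A + p B ≤ p (A ∪ B) + p (A ∩ B)) →
    (∀ A ⊆ E, p A ≤ f A) →
    ∃ (c : ℤ) (y : α → ℤ), ∀ A ⊆ E, p A ≤ c + ∑ j ∈ A, y j ∧ c + ∑ j ∈ A, y j ≤ f A := by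
  induction E using Finset.induction_on with
  | empty =>
    intro f p _ _ h
    refine ⟨p ∅, fun _ => 0, fun A hA => ?_⟩
    have : A = ∅ := Finset.subset_empty.mp hA
    subst this
    simpa using h ∅ (Finset.Subset.refl _)
  | insert e E he ih =>
    intro f p hf hp hpf
    obtain ⟨S0, hS0, hmax⟩ := Finset.exists_max_image E.powerset
      (fun S => p (insert e S) - f S) ⟨∅, Finset.empty_mem_powerset _⟩
    set t := p (insert e S0) - f S0 with ht
    have hS0' : S0 ⊆ E := Finset.mem_powerset.mp hS0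
    have hsub : ∀ A ⊆ E, A ⊆ insert e E := fun A hA => hA.trans (Finset.subset_insert _ _)
    have hsub' : ∀ A ⊆ E, insert e A ⊆ insert e E := fun A hA => Finset.insert_subset_insert _ hA
    have u1 : ∀ A B : Finset α, insert e A ∪ B = insert e (A ∪ B) := fun A B => by
      ext x; simp
    have u2 : ∀ A B : Finset α, A ∪ insert e B = insert e (A ∪ B) := fun A B => by
      ext x; simp
    have u3 : ∀ A B : Finset α, insert e A ∪ insert e B = insert e (A ∪ B) := fun A B => by
      ext x; simp
    have i1 : ∀ A : Finset α, ∀ B ⊆ E, insert e A ∩ B = A ∩ B := fun A B hB =>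
      Finset.insert_inter_of_notMem (fun h => he (hB h))
    have i2 : ∀ A ⊆ E, ∀ B : Finset α, A ∩ insert e B = A ∩ B := fun A hA B =>
      Finset.inter_insert_of_notMem (fun h => he (hA h))
    have i3 : ∀ A B : Finset α, insert e A ∩ insert e B = insert e (A ∩ B) := fun A B => by
      ext x; simp only [Finset.mem_inter, Finset.mem_insert]; tauto
    obtain ⟨c, y, hy⟩ := ih (fun S => min (f S) (f (insert e S) - t))
      (fun S => max (p S) (p (insert e S) - t)) (by
        intro A hA B hB
        have h1 := hf A (hsub A hA) B (hsub B hB)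
        have h2 := hf _ (hsub' A hA) B (hsub B hB)
        have h3 := hf A (hsub A hA) _ (hsub' B hB)
        have h4 := hf _ (hsub' A hA) _ (hsub' B hB)
        rw [u1, i1 A B hB] at h2
        rw [u2, i2 A hA B] at h3
        rw [u3, i3] at h4
        omega) (by
        intro A hA B hB
        have h1 := hp A (hsub A hA) B (hsub B hB)
        have h2 := hp _ (hsub' A hA) B (hsub B hB)
        have h3 := hp A (hsub A hA) _ (hsub' B hB)
        have h4 := hp _ (hsub' A hA) _ (hsub' B hB)
        rw [u1, i1 A B hB] at h2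
        rw [u2, i2 A hA B] at h3
        rw [u3, i3] at h4
        omega) (by
        intro A hA
        have h1 := hpf A (hsub A hA)
        have h2 := hpf _ (hsub' A hA)
        have h3 : p (insert e A) - f A ≤ t := hmax A (Finset.mem_powerset.mpr hA)
        have h4 := hp _ (hsub' S0 hS0') A (hsub A hA)
        have h5 := hf S0 (hsub S0 hS0') _ (hsub' A hA)
        rw [u1, i1 S0 A hA] at h4
        rw [u2, i2 S0 hS0' A] at h5
        have h6 := hpf _ (hsub' (S0 ∪ A) (Finset.union_subset hS0' hA))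
        have h7 := hpf _ (hsub (S0 ∩ A) (Finset.inter_subset_right.trans hA))
        omega)
    refine ⟨c, Function.update y e t, fun A hA => ?_⟩
    have key : ∀ B ⊆ E, ∑ j ∈ B, Function.update y e t j = ∑ j ∈ B, y j := fun B hB =>
      Finset.sum_congr rfl fun j hj => Function.update_of_ne (fun h : j = e => he (h ▸ hB hj)) _ _
    by_cases heA : e ∈ A
    · have hB : A.erase e ⊆ E := by
        intro x hx
        rcases Finset.mem_insert.mp (hA (Finset.mem_of_mem_erase hx)) with h | h
        · exact absurd h (Finset.ne_of_mem_erase hx)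
        · exact h
      have h1 := hy _ hB
      simp only [Finset.insert_erase heA] at h1
      rw [← Finset.add_sum_erase A _ heA, key _ hB, Function.update_self]
      omega
    · have hB : A ⊆ E := (Finset.subset_insert_iff_of_notMem heA).mp hA
      have h1 := hy _ hB
      rw [key _ hB]
      omega

/-- `Val g S v`: `v` is the sum of `g` over the blocks of a partition of `S`. -/
inductive Val (g : Finset α → ℤ) : Finset α → ℤ → Prop
  | nil : Val g ∅ 0
  | cons {S T : Finset α} {v : ℤ} : Val g S v → T.Nonempty → Disjoint S T → Val g (S ∪ T) (v + g T)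

theorem Val.empty {g : Finset α → ℤ} {S : Finset α} {v : ℤ} (h : Val g S v) (hS : S = ∅) :
    v = 0 := by
  induction h with
  | nil => rfl
  | cons _ hT _ _ =>
    exfalso
    rw [Finset.union_eq_empty] at hS
    exact hT.ne_empty hS.2

theorem Val.single (g : Finset α → ℤ) {T : Finset α} (hT : T.Nonempty) : Val g T (g T) := by
  have := Val.cons (Val.nil (g := g)) hT (Finset.disjoint_empty_left _)
  simpa using this

theorem Val.sum_le {g : Finset α → ℤ} {y : α → ℤ} {E : Finset α}
    (hy : ∀ U ⊆ E, U.Nonempty → ∑ j ∈ U, y j ≤ g U) {S : Finset α} {v : ℤ} (h : Val g S v) :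
    S ⊆ E → ∑ j ∈ S, y j ≤ v := by
  induction h with
  | nil => simp
  | cons _ hT hd ih =>
    intro hS
    rw [Finset.sum_union hd]
    have := ih (Finset.subset_union_left.trans hS)
    have := hy _ (Finset.subset_union_right.trans hS) hT
    omega

theorem val_of_cover {g : Finset α → ℤ}
    (hg : ∀ A B : Finset α, (A ∩ B).Nonempty → g (A ∪ B) + g (A ∩ B) ≤ g A + g B)
    {y : α → ℤ} (S : Finset α) :
    (∀ U ⊆ S, U.Nonempty → ∑ j ∈ U, y j ≤ g U) →
    (∀ j ∈ S, ∃ U ⊆ S, j ∈ U ∧ ∑ j ∈ U, y j = g U) → Val g S (∑ j ∈ S, y j) := by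
  induction S using Finset.strongInduction with
  | H S ih =>
    intro hy hc
    rcases S.eq_empty_or_nonempty with rfl | ⟨j0, hj0⟩
    · simpa using Val.nil
    obtain ⟨T, hT, hmax⟩ := Finset.exists_max_image
      (S.powerset.filter fun U => U.Nonempty ∧ ∑ j ∈ U, y j = g U) Finset.card (by
        obtain ⟨U, hU, hj, ht⟩ := hc j0 hj0
        exact ⟨U, by simp [hU, ht]; exact ⟨j0, hj⟩⟩)
    simp only [Finset.mem_filter, Finset.mem_powerset] at hT hmax
    obtain ⟨hTS, hTne, hTt⟩ := hT
    have hss : S \ T ⊂ S := Finset.sdiff_ssubset hTS hTne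
    have h1 := ih (S \ T) hss (fun U hU hne => hy U (hU.trans Finset.sdiff_subset) hne) (by
      intro j hj
      obtain ⟨U, hU, hjU, ht⟩ := hc j (Finset.mem_sdiff.mp hj).1
      refine ⟨U, ?_, hjU, ht⟩
      intro x hx
      refine Finset.mem_sdiff.mpr ⟨hU hx, fun hxT => ?_⟩
      have hne : (U ∩ T).Nonempty := ⟨x, Finset.mem_inter.mpr ⟨hx, hxT⟩⟩
      have h2 := hg U T hne
      have h3 := hy (U ∪ T) (Finset.union_subset hU hTS) (hTne.mono Finset.subset_union_right)
      have h4 := hy (U ∩ T) (Finset.inter_subset_right.trans hTS) hne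
      have h5 := Finset.sum_union_inter (s₁ := U) (s₂ := T) (f := y)
      have h6 := hmax (U ∪ T) ⟨Finset.union_subset hU hTS,
        hTne.mono Finset.subset_union_right, by omega⟩
      have h7 : T = U ∪ T := Finset.eq_of_subset_of_card_le Finset.subset_union_right h6
      exact (Finset.mem_sdiff.mp hj).2 (h7 ▸ Finset.mem_union_left _ hjU))
    have h2 := Val.cons h1 hTne Finset.sdiff_disjoint
    rw [Finset.sdiff_union_of_subset hTS, ← hTt, Finset.sum_sdiff hTS] at h2
    exact h2

theorem greedy_extend (g : Finset α → ℤ) (S : Finset α) (y : α → ℤ)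
    (hy : ∀ U ⊆ S, U.Nonempty → ∑ j ∈ U, y j ≤ g U)
    (hc : ∀ j ∈ S, ∃ U ⊆ S, j ∈ U ∧ ∑ j ∈ U, y j = g U) (D : Finset α) :
    ∃ y' : α → ℤ, (∀ j ∈ S, y' j = y j) ∧
      (∀ U ⊆ S ∪ D, U.Nonempty → ∑ j ∈ U, y' j ≤ g U) ∧
      (∀ j ∈ S ∪ D, ∃ U ⊆ S ∪ D, j ∈ U ∧ ∑ j ∈ U, y' j = g U) := by
  induction D using Finset.induction_on with
  | empty => exact ⟨y, fun _ _ => rfl, by simpa using hy, by simpa using hc⟩
  | insert e D _ ih =>
    obtain ⟨z, hz1, hz2, hz3⟩ := ih
    rw [Finset.union_insert]
    by_cases he : e ∈ S ∪ D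
    · rw [Finset.insert_eq_of_mem he]
      exact ⟨z, hz1, hz2, hz3⟩
    set T := S ∪ D with hT
    obtain ⟨U0, hU0, hmin⟩ := Finset.exists_min_image T.powerset
      (fun U => g (insert e U) - ∑ j ∈ U, z j) ⟨∅, Finset.empty_mem_powerset _⟩
    set t := g (insert e U0) - ∑ j ∈ U0, z j with ht
    have hU0' : U0 ⊆ T := Finset.mem_powerset.mp hU0
    have key : ∀ B ⊆ T, ∑ j ∈ B, Function.update z e t j = ∑ j ∈ B, z j := fun B hB =>
      Finset.sum_congr rfl fun j hj => Function.update_of_ne (fun h : j = e => he (h ▸ hB hj)) _ _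
    refine ⟨Function.update z e t, fun j hj => ?_, fun U hU hne => ?_, fun j hj => ?_⟩
    · rw [Function.update_of_ne (fun h : j = e => he (h ▸ Finset.mem_union_left _ hj)), hz1 j hj]
    · by_cases heU : e ∈ U
      · have hB : U.erase e ⊆ T := by
          intro x hx
          rcases Finset.mem_insert.mp (hU (Finset.mem_of_mem_erase hx)) with h | h
          · exact absurd h (Finset.ne_of_mem_erase hx)
          · exact h
        have h1 : t ≤ g (insert e (U.erase e)) - ∑ j ∈ U.erase e, z j :=
          hmin _ (Finset.mem_powerset.mpr hB)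
        rw [Finset.insert_erase heU] at h1
        rw [← Finset.add_sum_erase U _ heU, key _ hB, Function.update_self]
        omega
      · have hB : U ⊆ T := (Finset.subset_insert_iff_of_notMem heU).mp hU
        rw [key _ hB]
        exact hz2 U hB hne
    · rcases Finset.mem_insert.mp hj with rfl | hj
      · refine ⟨insert j U0, Finset.insert_subset_insert _ hU0', Finset.mem_insert_self _ _, ?_⟩
        rw [Finset.sum_insert (fun h => he (hU0' h)), key _ hU0', Function.update_self]
        omega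
      · obtain ⟨U, hU, hjU, hUt⟩ := hz3 j hj
        exact ⟨U, hU.trans (Finset.subset_insert _ _), hjU, by rw [key _ hU, hUt]⟩

/-- The Dilworth truncation of an intersecting submodular function is submodular. -/
theorem dilworth {g : Finset α → ℤ}
    (hg : ∀ A B : Finset α, (A ∩ B).Nonempty → g (A ∪ B) + g (A ∩ B) ≤ g A + g B) :
    ∃ G : Finset α → ℤ, (∀ S, Val g S (G S)) ∧ (∀ S v, Val g S v → G S ≤ v) ∧
      ∀ A B, G (A ∪ B) + G (A ∩ B) ≤ G A + G B := by
  have hex : ∀ S : Finset α, ∃ v, Val g S v ∧ ∀ w, Val g S w → v ≤ w := by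
    intro S
    obtain ⟨y, -, hy, hc⟩ := greedy_extend g ∅ (fun _ => 0) (by simp) (by simp) S
    rw [Finset.empty_union] at hy hc
    exact ⟨_, val_of_cover hg S hy hc, fun w hw => hw.sum_le hy (Finset.Subset.refl _)⟩
  choose G hG1 hG2 using hex
  refine ⟨G, hG1, hG2, fun A B => ?_⟩
  obtain ⟨y, -, hy, hc⟩ := greedy_extend g ∅ (fun _ => 0) (by simp) (by simp) (A ∩ B)
  rw [Finset.empty_union] at hy hc
  obtain ⟨z, hz1, hz2, hz3⟩ := greedy_extend g (A ∩ B) y hy hc (A ∪ B)
  have hu : A ∩ B ∪ (A ∪ B) = A ∪ B := by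
    apply Finset.union_eq_right.mpr
    exact Finset.inter_subset_left.trans Finset.subset_union_left
  rw [hu] at hz2 hz3
  have h1 := hG2 _ _ (val_of_cover hg _ hy hc)
  have h2 := hG2 _ _ (val_of_cover hg _ hz2 hz3)
  have h3 := (hG1 A).sum_le hz2 Finset.subset_union_left
  have h4 := (hG1 B).sum_le hz2 Finset.subset_union_right
  have h5 := Finset.sum_union_inter (s₁ := A) (s₂ := B) (f := z)
  have h6 : ∑ j ∈ A ∩ B, z j = ∑ j ∈ A ∩ B, y j := Finset.sum_congr rfl hz1
  omega

end Pool.Agent.Lib.MP_8dad47_al
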